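import Pool.Agent.J4H63.DB.Gadget

/-!
# Transfer of randomised approximation schemes along the gadget
-/

namespace Pool.Agent.J4H63.DB

open Pool.Agent.NPC Pool.Agent.H49R2.PC

/-! ### The gadget is half regular -/

theorem gad_halfRegular (k : ℕ) (G : BGr) (hG : IsBip G) : HalfRegular k (gad k G) := by
  have hlen : (gad k G).1.length = 2 * mm k G + hh G := by
    change (L0 k G ++ N1 k G).length = _
    rw [List.length_append, L0_length, N1_length, MM]; ring
  have hlen2 : (gad k G).2.1.length = 2 * mm k G + hh G := by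
    change (R0 k G ++ N1 k G).length = _
    rw [List.length_append, R0_length, N1_length, MM]; ring
  have hmm : hh G ^ k = mm k G := rfl
  have hhG : hh G = G.1.length + G.2.1.length + 2 := rfl
  have key : ∀ d : ℕ, mm k G ≤ d → d ≤ mm k G + hh G →
      (2 * d - (gad k G).1.length) ^ k ≤ (gad k G).1.length ∧
      ((gad k G).1.length - 2 * d) ^ k ≤ (gad k G).1.length := by
    intro d h1 h2
    rw [hlen]
    constructor
    · refine (Nat.pow_le_pow_left (?_ : _ ≤ hh G) k).trans ?_
      · omega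
      · rw [hmm]; omega
    · refine (Nat.pow_le_pow_left (?_ : _ ≤ hh G) k).trans ?_
      · omega
      · rw [hmm]; omega
  have c1 : (N1 k G).toFinset.card = mm k G := by
    have h : (N1 k G).Nodup := odds_nodup _ _
    rw [List.toFinset_card_of_nodup h, N1_length]
  have c2 : (L0 k G).toFinset.card = MM k G := by
    rw [List.toFinset_card_of_nodup (L0_nodup k G hG), L0_length]
  have c3 : (R0 k G).toFinset.card = MM k G := by
    rw [List.toFinset_card_of_nodup (R0_nodup k G hG), R0_length]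
  have mL : ∀ x, x ∈ (gad k G).1 ↔ x ∈ L0 k G ∨ x ∈ N1 k G := fun x => by
    change x ∈ L0 k G ++ N1 k G ↔ _
    rw [List.mem_append]
  have mR : ∀ x, x ∈ (gad k G).2.1 ↔ x ∈ R0 k G ∨ x ∈ N1 k G := fun x => by
    change x ∈ R0 k G ++ N1 k G ↔ _
    rw [List.mem_append]
  have odd_of_N1 : ∀ x ∈ N1 k G, ∀ y, x ≠ 2 * y := by
    intro x hx y
    rw [N1, mem_odds] at hx
    obtain ⟨j, _, rfl⟩ := hx
    omega
  refine ⟨by rw [hlen, hlen2], fun u hu => key _ ?_ ?_, fun v hv => key _ ?_ ?_⟩
  · rw [degL_eq]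
    rcases (mL u).1 hu with hu | hu
    · rw [← c1]
      refine Finset.card_le_card fun v hv => ?_
      rw [List.mem_toFinset] at hv
      rw [Finset.mem_filter, List.mem_toFinset, mR, mem_gadE]
      exact ⟨Or.inr hv, Or.inr (Or.inr ⟨hu, hv⟩)⟩
    · have : (R0 k G).toFinset.card ≤
          ((gad k G).2.1.toFinset.filter (fun v => (u, v) ∈ (gad k G).2.2)).card := by
        refine Finset.card_le_card fun v hv => ?_
        rw [List.mem_toFinset] at hv
        rw [Finset.mem_filter, List.mem_toFinset, mR, mem_gadE]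
        exact ⟨Or.inl hv, Or.inr (Or.inl ⟨hu, hv⟩)⟩
      rw [c3, MM] at this
      omega
  · rw [degL_eq]
    rcases (mL u).1 hu with hu | hu
    · have h1 : (gad k G).2.1.toFinset.filter (fun v => (u, v) ∈ (gad k G).2.2) ⊆
          (N1 k G).toFinset ∪ (G.2.1.toFinset.image (2 * ·)) := by
        intro v hv
        rw [Finset.mem_filter, List.mem_toFinset, mR, mem_gadE] at hv
        rw [Finset.mem_union, List.mem_toFinset, Finset.mem_image]
        rcases hv.2 with ⟨e, he, _, h2⟩ | h | h
        · right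
          exact ⟨e.2, List.mem_toFinset.2 (hG.2.2 e he).2, h2.symm⟩
        · exact absurd h.1 (not_mem_N1_of_mem_L0 k G hu)
        · exact Or.inl h.2
      refine (Finset.card_le_card h1).trans ((Finset.card_union_le _ _).trans ?_)
      rw [c1]
      have := (Finset.card_image_le (s := G.2.1.toFinset) (f := (2 * ·))).trans
        (List.toFinset_card_le G.2.1)
      omega
    · have h1 : (gad k G).2.1.toFinset.filter (fun v => (u, v) ∈ (gad k G).2.2) ⊆
          (R0 k G).toFinset := by
        intro v hv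
        rw [Finset.mem_filter, List.mem_toFinset, mR, mem_gadE] at hv
        rw [List.mem_toFinset]
        rcases hv.2 with ⟨e, _, h2, _⟩ | h | h
        · exact absurd h2 (odd_of_N1 u hu _)
        · exact h.2
        · exact absurd hu (not_mem_N1_of_mem_L0 k G h.1)
      refine (Finset.card_le_card h1).trans ?_
      rw [c3, MM]
  · rw [degR_eq]
    rcases (mR v).1 hv with hv | hv
    · rw [← c1]
      refine Finset.card_le_card fun u hu => ?_
      rw [List.mem_toFinset] at hu
      rw [Finset.mem_filter, List.mem_toFinset, mL, mem_gadE]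
      exact ⟨Or.inr hu, Or.inr (Or.inl ⟨hu, hv⟩)⟩
    · have : (L0 k G).toFinset.card ≤
          ((gad k G).1.toFinset.filter (fun u => (u, v) ∈ (gad k G).2.2)).card := by
        refine Finset.card_le_card fun u hu => ?_
        rw [List.mem_toFinset] at hu
        rw [Finset.mem_filter, List.mem_toFinset, mL, mem_gadE]
        exact ⟨Or.inl hu, Or.inr (Or.inr ⟨hu, hv⟩)⟩
      rw [c2, MM] at this
      omega
  · rw [degR_eq]
    rcases (mR v).1 hv with hv | hv
    · have h1 : (gad k G).1.toFinset.filter (fun u => (u, v) ∈ (gad k G).2.2) ⊆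
          (N1 k G).toFinset ∪ (G.1.toFinset.image (2 * ·)) := by
        intro u hu
        rw [Finset.mem_filter, List.mem_toFinset, mL, mem_gadE] at hu
        rw [Finset.mem_union, List.mem_toFinset, Finset.mem_image]
        rcases hu.2 with ⟨e, he, h2, _⟩ | h | h
        · right
          exact ⟨e.1, List.mem_toFinset.2 (hG.2.2 e he).1, h2.symm⟩
        · exact Or.inl h.1
        · exact absurd h.2 (not_mem_N1_of_mem_R0 k G hv)
      refine (Finset.card_le_card h1).trans ((Finset.card_union_le _ _).trans ?_)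
      rw [c1]
      have := (Finset.card_image_le (s := G.1.toFinset) (f := (2 * ·))).trans
        (List.toFinset_card_le G.1)
      omega
    · have h1 : (gad k G).1.toFinset.filter (fun u => (u, v) ∈ (gad k G).2.2) ⊆
          (L0 k G).toFinset := by
        intro u hu
        rw [Finset.mem_filter, List.mem_toFinset, mL, mem_gadE] at hu
        rw [List.mem_toFinset]
        rcases hu.2 with ⟨e, _, _, h2⟩ | h | h
        · exact absurd h2 (odd_of_N1 v hv _)
        · exact absurd hv (not_mem_N1_of_mem_R0 k G h.2)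
        · exact h.1
      refine (Finset.card_le_card h1).trans ?_
      rw [c2, MM]

/-- the exponent of the factor of the gadget -/
def expo (k : ℕ) (G : BGr) : ℕ := (MM k G - G.1.length) + (MM k G - G.2.1.length)

theorem extra_le (k : ℕ) (G : BGr) : extra k G ≤ 2 ^ expo k G := by
  have h1 : expo k G = MM k G + mm k G + 2 := by
    have := le_MM k G
    have h2 : nV G = G.1.length + G.2.1.length := rfl
    unfold expo MM hh
    unfold MM hh at this
    omega
  have h2 : mm k G ≤ MM k G := Nat.le_add_right _ _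
  have h3 : 2 ^ mm k G ≤ 2 ^ MM k G := Nat.pow_le_pow_right (by norm_num) h2
  have h4 : 2 ^ mm k G - 1 ≤ 2 ^ mm k G := Nat.sub_le _ _
  calc extra k G ≤ 2 ^ mm k G * 2 ^ MM k G + 2 ^ mm k G * (2 ^ MM k G + 2 ^ MM k G) :=
        Nat.add_le_add (Nat.mul_le_mul_right _ h4)
          (Nat.mul_le_mul h4 (Nat.add_le_add_left (h4.trans h3) _))
    _ = 3 * (2 ^ MM k G * 2 ^ mm k G) := by ring
    _ ≤ 4 * (2 ^ MM k G * 2 ^ mm k G) := Nat.mul_le_mul_right _ (by norm_num)
    _ = 2 ^ expo k G := by rw [h1, pow_add, pow_add]; ring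

theorem one_le_numIS (G : BGr) : 1 ≤ numIS G :=
  Nat.one_le_two_pow.trans (le_cnt G.2.2 G.1.toFinset G.2.1.toFinset)

/-! ### The approximation -/

theorem approx_transfer {N : ℕ} (hN : 2 ≤ N) {num den P K I : ℕ} (hP : 0 < P) (hI : 0 < I)
    (hK : K ≤ P) (h : Approx (4 * N) ((num : ℝ) / den) ((P * I + K : ℕ) : ℝ)) :
    Approx N (((num - K * den : ℕ) : ℝ) / ((den * P : ℕ) : ℝ)) (I : ℝ) := by
  obtain ⟨h1, h2⟩ := h
  have hN' : (2 : ℝ) ≤ N := by exact_mod_cast hN
  have hN0 : (0 : ℝ) < N := by linarith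
  have hP' : (0 : ℝ) < P := by exact_mod_cast hP
  have hI' : (1 : ℝ) ≤ I := by exact_mod_cast hI
  have hK' : (K : ℝ) ≤ P := by exact_mod_cast hK
  have hK0 : (0 : ℝ) ≤ K := Nat.cast_nonneg _
  have hPI : (P : ℝ) ≤ P * I := by nlinarith
  push_cast at h1 h2
  have hpos : (0 : ℝ) < (1 - 1 / (4 * (N : ℝ))) * (P * I + K) := by
    have : 1 / (4 * (N : ℝ)) < 1 := by
      rw [div_lt_one (by positivity)]; linarith
    have h3 : (0 : ℝ) < P * I + K := by nlinarith
    exact mul_pos (by linarith) h3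
  have hden : (den : ℝ) ≠ 0 := by
    intro h0
    rw [h0, div_zero] at h1
    linarith
  have hden0 : (0 : ℝ) < den := lt_of_le_of_ne (Nat.cast_nonneg _) (Ne.symm hden)
  -- the value after the subtraction
  set Z : ℝ := (num : ℝ) / den with hZ
  have hnum : (num : ℝ) = Z * den := by rw [hZ]; field_simp
  have hsmall : (P * I + K : ℝ) / (4 * N) ≤ (P * I : ℝ) / (2 * N) := by
    rw [div_le_div_iff₀ (by positivity) (by positivity)]
    nlinarith
  have h1' : (P * I + K : ℝ) - (P * I + K : ℝ) / (4 * N) ≤ Z := by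
    have : (1 - 1 / (4 * (N : ℝ))) * (P * I + K) = (P * I + K : ℝ) - (P * I + K : ℝ) / (4 * N) := by
      ring
    linarith
  have h2' : Z ≤ (P * I + K : ℝ) + (P * I + K : ℝ) / (4 * N) := by
    have : (1 + 1 / (4 * (N : ℝ))) * (P * I + K) = (P * I + K : ℝ) + (P * I + K : ℝ) / (4 * N) := by
      ring
    linarith
  have hhalf : (P * I : ℝ) / (2 * N) ≤ P * I := by
    rw [div_le_iff₀ (by positivity)]
    nlinarith
  have hKZ : (K : ℝ) ≤ Z := by linarith
  have hsub : (K * den : ℕ) ≤ num := by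
    have : ((K * den : ℕ) : ℝ) ≤ num := by
      push_cast
      rw [hnum]
      exact mul_le_mul_of_nonneg_right hKZ hden0.le
    exact_mod_cast this
  have hval : (((num - K * den : ℕ) : ℝ) / ((den * P : ℕ) : ℝ)) = (Z - K) / P := by
    rw [Nat.cast_sub hsub]
    push_cast
    rw [hnum]
    field_simp
  rw [hval]
  have e1 : (P * I : ℝ) / (2 * N) ≤ (P * I) / N := by
    rw [div_le_div_iff₀ (by positivity) (by positivity)]
    nlinarith [mul_pos hP' (by linarith : (0 : ℝ) < I)]
  constructor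
  · rw [le_div_iff₀ hP']
    have : (1 - 1 / (N : ℝ)) * I * P = P * I - (P * I) / N := by ring
    rw [this]
    linarith
  · rw [div_le_iff₀ hP']
    have : (1 + 1 / (N : ℝ)) * I * P = P * I + (P * I) / N := by ring
    rw [this]
    linarith

/-! ### Random strings -/

theorem ncard_strings (m : ℕ) : {r : List Bool | r.length = m}.ncard = 2 ^ m := by
  have h : {r : List Bool | r.length = m} = Set.range (List.ofFn : (Fin m → Bool) → List Bool) := by
    ext r
    rw [Set.mem_setOf_eq, Set.mem_range]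
    constructor
    · intro h
      subst h
      exact ⟨r.get, List.ofFn_get r⟩
    · rintro ⟨f, rfl⟩
      exact List.length_ofFn
  rw [h, ← Set.image_univ, Set.ncard_image_of_injective _ List.ofFn_injective, Set.ncard_univ]
  simp

theorem finite_strings (m : ℕ) : {r : List Bool | r.length = m}.Finite := by
  apply Set.finite_of_ncard_ne_zero
  rw [ncard_strings]
  positivity

theorem ncard_take (P : List Bool → Prop) (l l' : ℕ) (h : l ≤ l') :
    {r : List Bool | r.length = l ∧ P r}.ncard * 2 ^ (l' - l) ≤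
      {r : List Bool | r.length = l' ∧ P (r.take l)}.ncard := by
  have hfin : {r : List Bool | r.length = l' ∧ P (r.take l)}.Finite :=
    (finite_strings l').subset fun r hr => hr.1
  have h1 : (fun q : List Bool × List Bool => q.1 ++ q.2) ''
      ({r : List Bool | r.length = l ∧ P r} ×ˢ {r : List Bool | r.length = l' - l}) ⊆
      {r : List Bool | r.length = l' ∧ P (r.take l)} := by
    rintro _ ⟨⟨r, r'⟩, ⟨⟨h2, h3⟩, h4⟩, rfl⟩
    simp only [Set.mem_setOf_eq] at h2 h3 h4 ⊢
    rw [List.length_append, h2, h4]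
    refine ⟨by omega, ?_⟩
    rw [← h2, List.take_left]
    exact h3
  refine le_trans ?_ (Set.ncard_le_ncard h1 hfin)
  rw [Set.ncard_image_of_injOn, Set.ncard_prod, ncard_strings]
  rintro ⟨r, r'⟩ ⟨⟨h2, _⟩, _⟩ ⟨s, s'⟩ ⟨⟨h3, _⟩, _⟩ h4
  simp only [Set.mem_setOf_eq] at h2 h3 h4
  obtain ⟨h5, h6⟩ := List.append_inj h4 (h2.trans h3.symm)
  rw [h5, h6]

/-! ### Polynomial time -/

section Poly

variable {α : Type} [TEnc α]

theorem p_bits : NPC.Poly (fun a : α => (bits a : List Bool)) := by
  obtain ⟨c, p, h⟩ := PC.rawIn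
  exact ⟨c, p, fun a => h (bits a)⟩

/-- A function on typed data that is computed by a polynomial-time function on codes. -/
theorem poly_of_code {β : Type} [TEnc β] [TDec β] {F : α → β} {A : List Bool → List Bool}
    (b : β) (hA : PolyTime A) (h : ∀ s, A (bits s) = bits (F s)) : NPC.Poly F := by
  have h1 : NPC.Poly (fun a : α => A (bits a)) := (H622R2.poly_of_polyTime hA).comp p_bits
  refine (Poly.optCases (o := fun a : α => unbits β (A (bits a))) (g := fun _ => b)
    (h := fun _ b => b) (poly_unbits.comp h1) (NPC.Poly.const b) (Poly.snd Poly.id)).congr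
    fun a => ?_
  simp only [h, unbits_bits]

theorem p_eval {n : α → ℕ} (hn : NPC.Poly n) (p : Polynomial ℕ) :
    NPC.Poly (fun a => p.eval (n a)) := by
  induction p using Polynomial.induction_on' with
  | add p q hp hq =>
    simp only [Polynomial.eval_add]
    exact NPC.Poly.add hp hq
  | monomial k c =>
    simp only [Polynomial.eval_monomial]
    refine NPC.Poly.mul (NPC.Poly.const c) ?_
    induction k with
    | zero => simpa using NPC.Poly.const (α := α) 1
    | succ k ih =>
      simp only [pow_succ]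
      exact NPC.Poly.mul ih hn

theorem p_mul2 {l : α → List ℕ} (hl : NPC.Poly l) : NPC.Poly (fun a => (l a).map (2 * ·)) :=
  NPC.Poly.map (F := fun _ x => 2 * x) hl (NPC.Poly.mul (NPC.Poly.const 2) (Poly.snd Poly.id))

theorem p_odds {i n : α → ℕ} (hi : NPC.Poly i) (hn : UPoly n) :
    NPC.Poly (fun a => odds (i a) (n a)) :=
  NPC.Poly.map (F := fun a j => 2 * (i a + j) + 1) hn.range
    (NPC.Poly.add (NPC.Poly.mul (NPC.Poly.const 2)
      (NPC.Poly.add (hi.comp (Poly.fst Poly.id)) (Poly.snd Poly.id))) (NPC.Poly.const 1))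

theorem p_prodL {A B : α → List ℕ} (hA : NPC.Poly A) (hB : NPC.Poly B) :
    NPC.Poly (fun a => prodL (A a) (B a)) :=
  NPC.Poly.flatMap (F := fun a u => (B a).map (fun v => (u, v))) hA
    (NPC.Poly.map (F := fun (p : α × ℕ) v => (p.2, v)) (hB.comp (Poly.fst Poly.id))
      (Poly.pair (Poly.snd (Poly.fst Poly.id)) (Poly.snd Poly.id)))

variable {G : α → BGr}

theorem u_hh (hG : NPC.Poly G) : UPoly (fun a => hh (G a)) :=
  UPoly.add (p_nV hG) (UPoly.const 2)

theorem u_mm (k : ℕ) (hG : NPC.Poly G) : UPoly (fun a => mm k (G a)) :=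
  u_pow_const (u_hh hG) k

theorem u_MM (k : ℕ) (hG : NPC.Poly G) : UPoly (fun a => MM k (G a)) :=
  UPoly.add (u_mm k hG) (u_hh hG)

theorem u_sub {m n : α → ℕ} (hm : UPoly m) (hn : UPoly n) : UPoly (fun a => m a - n a) :=
  UPoly.of_le (NPC.Poly.sub hm.toPoly hn.toPoly) hm fun _ => Nat.sub_le _ _

theorem p_L0 (k : ℕ) (hG : NPC.Poly G) : NPC.Poly (fun a => L0 k (G a)) :=
  Poly.append (p_mul2 (Poly.fst hG)) (p_odds (NPC.Poly.const 0)
    (u_sub (u_MM k hG) (UPoly.length (Poly.fst hG))))

theorem p_R0 (k : ℕ) (hG : NPC.Poly G) : NPC.Poly (fun a => R0 k (G a)) :=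
  Poly.append (p_mul2 (Poly.fst (Poly.snd hG))) (p_odds (NPC.Poly.const 0)
    (u_sub (u_MM k hG) (UPoly.length (Poly.fst (Poly.snd hG)))))

theorem p_N1 (k : ℕ) (hG : NPC.Poly G) : NPC.Poly (fun a => N1 k (G a)) :=
  p_odds (u_MM k hG).toPoly (u_mm k hG)

theorem p_gad (k : ℕ) (hG : NPC.Poly G) : NPC.Poly (fun a => gad k (G a)) := by
  refine Poly.pair (Poly.append (p_L0 k hG) (p_N1 k hG))
    (Poly.pair (Poly.append (p_R0 k hG) (p_N1 k hG)) (Poly.append ?_
      (Poly.append (p_prodL (p_N1 k hG) (p_R0 k hG)) (p_prodL (p_L0 k hG) (p_N1 k hG)))))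
  exact NPC.Poly.map (F := fun _ (e : ℕ × ℕ) => (2 * e.1, 2 * e.2)) (Poly.snd (Poly.snd hG))
    (Poly.pair (NPC.Poly.mul (NPC.Poly.const 2) (Poly.fst (Poly.snd Poly.id)))
      (NPC.Poly.mul (NPC.Poly.const 2) (Poly.snd (Poly.snd Poly.id))))

theorem p_extra (k : ℕ) (hG : NPC.Poly G) : NPC.Poly (fun a => extra k (G a)) := by
  have h1 := NPC.Poly.sub (p_two_pow (u_mm k hG)) (NPC.Poly.const 1)
  have h2 := p_two_pow (u_MM k hG)
  exact NPC.Poly.add (NPC.Poly.mul h1 h2) (NPC.Poly.mul h1 (NPC.Poly.add h2 h1))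

theorem u_expo (k : ℕ) (hG : NPC.Poly G) : UPoly (fun a => expo k (G a)) :=
  UPoly.add (u_sub (u_MM k hG) (UPoly.length (Poly.fst hG)))
    (u_sub (u_MM k hG) (UPoly.length (Poly.fst (Poly.snd hG))))

end Poly

/-- An FPRAS for the nearly regular, nearly half dense graphs gives an FPRAS for all bipartite
graphs. -/
theorem transfer (k : ℕ)
    (h : HasFPRASOn (fun G : BGr => IsBip G ∧ HalfRegular k G) numIS) :
    HasFPRASOn IsBip numIS := by
  obtain ⟨F, A, p, hA, hAF, hF⟩ := h
  have hFp : NPC.Poly F := poly_of_code (0, 0) hA hAF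
  have hgad : NPC.Poly (fun G : BGr => gad k G) := p_gad k Poly.id
  obtain ⟨q, hq⟩ := hgad.sz_le
  set len : BGr × ℕ × List Bool → ℕ := fun x => p.eval ((bits (gad k x.1)).length + 4 * x.2.1)
    with hlen
  set G' : BGr × ℕ × List Bool → ℕ × ℕ := fun x =>
    F (gad k x.1, 4 * x.2.1, x.2.2.take (len x)) with hG'
  have hG1 : NPC.Poly (fun x : BGr × ℕ × List Bool => gad k x.1) := p_gad k (Poly.fst Poly.id)
  have h4N : NPC.Poly (fun x : BGr × ℕ × List Bool => 4 * x.2.1) :=
    NPC.Poly.mul (NPC.Poly.const 4) (Poly.fst (Poly.snd Poly.id))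
  have hlenP : NPC.Poly len :=
    p_eval (NPC.Poly.add (Poly.length (p_bits.comp hG1)) h4N) p
  have hG'P : NPC.Poly G' := hFp.comp (Poly.pair hG1 (Poly.pair h4N
    (p_take (Poly.snd (Poly.snd Poly.id)) hlenP)))
  have hout : NPC.Poly (fun x : BGr × ℕ × List Bool =>
      ((G' x).1 - extra k x.1 * (G' x).2, (G' x).2 * 2 ^ expo k x.1)) := by
    refine Poly.pair (NPC.Poly.sub (Poly.fst hG'P) (NPC.Poly.mul (p_extra k (Poly.fst Poly.id))
      (Poly.snd hG'P))) (NPC.Poly.mul (Poly.snd hG'P) (p_two_pow (u_expo k (Poly.fst Poly.id))))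
  obtain ⟨B, hB, hB'⟩ := exists_polyTime hout (0, 0)
  refine ⟨_, B, p.comp (q + Polynomial.C 4 * Polynomial.X), hB, hB', ?_⟩
  intro G hG N hN
  have hP := hF (gad k G) ⟨gad_isBip k G hG, gad_halfRegular k G hG⟩ (4 * N) (by omega)
  set l := p.eval ((bits (gad k G)).length + 4 * N) with hl
  set l' := (p.comp (q + Polynomial.C 4 * Polynomial.X)).eval ((bits G).length + N) with hl'
  have hll' : l ≤ l' := by
    rw [hl, hl', Polynomial.eval_comp]
    refine eval_mono p ?_
    simp only [Polynomial.eval_add, Polynomial.eval_mul, Polynomial.eval_C, Polynomial.eval_X]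
    have h1 : (bits (gad k G)).length ≤ q.eval (bits G).length := hq G
    have h2 : q.eval (bits G).length ≤ q.eval ((bits G).length + N) := eval_mono q (by omega)
    omega
  have hnum := numIS_gad k G hG
  set good : List Bool → Prop := fun r =>
    Approx (4 * N) (((F (gad k G, 4 * N, r)).1 : ℝ) / (F (gad k G, 4 * N, r)).2)
      (numIS (gad k G)) with hgood
  have h1 := ncard_take good l l' hll'
  have h2 : {r : List Bool | r.length = l' ∧ good (r.take l)} ⊆
      {r : List Bool | r.length = l' ∧ Approx N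
        (((((G' (G, N, r)).1 - extra k G * (G' (G, N, r)).2,
          (G' (G, N, r)).2 * 2 ^ expo k G) : ℕ × ℕ).1 : ℝ) /
        (((G' (G, N, r)).1 - extra k G * (G' (G, N, r)).2,
          (G' (G, N, r)).2 * 2 ^ expo k G) : ℕ × ℕ).2) (numIS G)} := by
    rintro r ⟨hr1, hr2⟩
    refine ⟨hr1, ?_⟩
    have h3 : G' (G, N, r) = F (gad k G, 4 * N, r.take l) := rfl
    rw [h3]
    simp only [hgood] at hr2
    rw [hnum] at hr2
    exact approx_transfer hN (by positivity) (one_le_numIS G) (extra_le k G) hr2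
  have h3 := Set.ncard_le_ncard h2 ((finite_strings l').subset fun r hr => hr.1)
  calc 3 * 2 ^ l' = 3 * 2 ^ l * 2 ^ (l' - l) := by
        rw [Nat.mul_assoc, ← pow_add, show l + (l' - l) = l' by omega]
    _ ≤ 4 * {r : List Bool | r.length = l ∧ good r}.ncard * 2 ^ (l' - l) :=
        Nat.mul_le_mul_right _ hP
    _ = 4 * ({r : List Bool | r.length = l ∧ good r}.ncard * 2 ^ (l' - l)) := by ring
    _ ≤ 4 * {r : List Bool | r.length = l' ∧ good (r.take l)}.ncard := Nat.mul_le_mul_left _ h1
    _ ≤ _ := Nat.mul_le_mul_left _ h3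

end Pool.Agent.J4H63.DB
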