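import Pool.Agent.J4H63.DB.Leaf

/-!
# The approximate count, and its correctness
-/

namespace Pool.Agent.J4H63.DB

open Pool.Agent.H49R2.PC

/-- the count of one piece, which is replaced by zero if there are many disjoint edges -/
def leafVal (E : List (ℕ × ℕ)) (t W : ℕ) (Q B : List ℕ) : ℕ :=
  if 8 * t ≤ (gm (edgesIn E Q B)).length then 0 else leafEx E W Q B (gm (edgesIn E Q B))

/-- the second phase and the counts of the pieces, for one state of the first phase -/
def mid (E : List (ℕ × ℕ)) (τ t W : ℕ) (s : List ℕ × List ℕ) : ℕ :=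
  ((phase (sw E) τ W s.2 s.1).map (fun q => leafVal E t W q.2 q.1)).sum

/-- the approximate count -/
def total (E : List (ℕ × ℕ)) (τ t W : ℕ) (L R : List ℕ) : ℕ :=
  ((phase E τ W L R).map (mid E τ t W)).sum

theorem sum_le_sum {α : Type} (l : List α) (f g : α → ℕ) (h : ∀ x ∈ l, f x ≤ g x) :
    (l.map f).sum ≤ (l.map g).sum := by
  induction l with
  | nil => simp
  | cons a l ih =>
    simp only [List.map_cons, List.sum_cons]
    exact Nat.add_le_add (h a (by simp)) (ih fun x hx => h x (List.mem_cons_of_mem _ hx))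

theorem sum_defect {α : Type} (l : List α) (f g : α → ℕ) (c D : ℕ)
    (h : ∀ x ∈ l, c * f x ≤ c * g x + D) :
    c * (l.map f).sum ≤ c * (l.map g).sum + l.length * D := by
  induction l with
  | nil => simp
  | cons a l ih =>
    simp only [List.map_cons, List.sum_cons, List.length_cons]
    have h1 := h a (by simp)
    have h2 := ih fun x hx => h x (List.mem_cons_of_mem _ hx)
    rw [Nat.mul_add, Nat.mul_add, Nat.add_mul, Nat.one_mul]
    omega

theorem swsw (E : List (ℕ × ℕ)) : sw (sw E) = E := by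
  simp [sw]

section

variable (E : List (ℕ × ℕ)) (δ s t W : ℕ) (L R : List ℕ) (hL : L.Nodup) (hR : R.Nodup)
  (hδ : 1 ≤ δ)
  (hsp : ∀ A ⊆ L.toFinset, ∀ B ⊆ R.toFinset,
    δ * (A.card + B.card) ≤ eBetween E A B + δ * (R.length + s))
  (hW1 : (L.length + 1) ^ (R.length / max 1 (δ / 8)) * (R.length + 1) ^ (L.length / max 1 (δ / 8))
    ≤ W) (hW2 : 2 ^ (8 * t) ≤ W)

include hL hR

theorem leaf_bound {q : List ℕ × List ℕ} {τ : ℕ} {s' : List ℕ × List ℕ} (hτ : τ = max 1 (δ / 8))
    (hs : s' ∈ phase E τ W L R) (hq : q ∈ phase (sw E) τ W s'.2 s'.1) (hδ : 1 ≤ δ)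
    (hsp : ∀ A ⊆ L.toFinset, ∀ B ⊆ R.toFinset,
      δ * (A.card + B.card) ≤ eBetween E A B + δ * (R.length + s)) (hW2 : 2 ^ (8 * t) ≤ W) :
    leafVal E t W q.2 q.1 ≤ cnt E q.2.toFinset q.1.toFinset ∧
      2 ^ t * cnt E q.2.toFinset q.1.toFinset ≤
        2 ^ t * leafVal E t W q.2 q.1 + 2 ^ (R.length + s) := by
  obtain ⟨g1, g2, g3⟩ := phase_good hs
  obtain ⟨k1, k2, k3⟩ := phase_good hq
  have n1 : s'.1.Nodup := (List.nodup_reverse.2 hL).sublist g1
  have n2 : s'.2.Nodup := hR.sublist g2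
  have n3 : q.2.Nodup := n1.sublist k2
  have n4 : q.1.Nodup := (List.nodup_reverse.2 n2).sublist k1
  have m1 : ∀ v ∈ q.2, v ∈ s'.1 := fun v hv => k2.subset hv
  have m2 : ∀ w ∈ q.1, w ∈ s'.2 := fun w hw => by
    have := k1.subset hw
    rwa [List.mem_reverse] at this
  have m3 : ∀ v ∈ s'.1, v ∈ L := fun v hv => by
    have := g1.subset hv
    rwa [List.mem_reverse] at this
  have d1 : ∀ v ∈ q.2, (nbrs E v q.1).length < τ := by
    intro v hv
    refine lt_of_le_of_lt ?_ (g3 v (m1 v hv))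
    have hle : (nbrs E v q.1).Sublist (nbrs E v s'.2.reverse) := nbrs_sublist E v k1
    refine hle.length_le.trans ?_
    rw [nbrs, nbrs, List.filter_reverse, List.length_reverse]
  unfold leafVal
  split_ifs with h
  · refine ⟨Nat.zero_le _, ?_⟩
    rw [Nat.mul_zero, Nat.zero_add]
    subst hτ
    refine cnt_le_of_matching E δ R.length s t q.2 q.1 n3 n4 hδ d1 k3 ?_ h
    have := hsp q.2.toFinset (fun v hv => List.mem_toFinset.2 (m3 v (m1 v (List.mem_toFinset.1 hv))))
      q.1.toFinset (fun w hw => List.mem_toFinset.2 (g2.subset (m2 w (List.mem_toFinset.1 hw))))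
    rwa [List.toFinset_card_of_nodup n3, List.toFinset_card_of_nodup n4] at this
  · rw [leafEx_eq E W q.2 q.1 n3 n4
      ((Nat.pow_le_pow_right (by norm_num) (by omega)).trans hW2)]
    exact ⟨le_rfl, Nat.le_add_right _ _⟩

include hδ hsp hW1 hW2

/-- The approximate count is at most the number of independent sets, and the difference is
small. -/
theorem total_correct :
    total E (max 1 (δ / 8)) t W L R ≤ cnt E L.toFinset R.toFinset ∧
    2 ^ t * cnt E L.toFinset R.toFinset ≤ 2 ^ t * total E (max 1 (δ / 8)) t W L R +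
      (L.length + 1) ^ (R.length / max 1 (δ / 8)) * (R.length + 1) ^ (L.length / max 1 (δ / 8)) *
        2 ^ (R.length + s) := by
  set τ := max 1 (δ / 8) with hτ
  have hτ1 : 1 ≤ τ := le_max_left _ _
  have hτ0 : τ ≠ 0 := by omega
  have p1 : pot τ L.length (([], R) : List ℕ × List ℕ) = (L.length + 1) ^ (R.length / τ) := by
    simp [pot, hτ0]
  have p2 : ∀ s' ∈ phase E τ W L R, pot τ s'.2.length (([], s'.1) : List ℕ × List ℕ) ≤
      (R.length + 1) ^ (L.length / τ) := by
    intro s' hs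
    obtain ⟨g1, g2, g3⟩ := phase_good hs
    have e1 := g1.length_le
    rw [List.length_reverse] at e1
    have e2 := g2.length_le
    simp only [pot, if_neg hτ0]
    exact (Nat.pow_le_pow_left (Nat.add_le_add_right e2 1) _).trans
      (Nat.pow_le_pow_right (Nat.succ_pos _) (Nat.div_le_div_right e1))
  have q1 : 1 ≤ (R.length + 1) ^ (L.length / τ) := Nat.one_le_pow _ _ (Nat.succ_pos _)
  have q2 : 1 ≤ (L.length + 1) ^ (R.length / τ) := Nat.one_le_pow _ _ (Nat.succ_pos _)
  have w1 : (L.length + 1) ^ (R.length / τ) ≤ W := (Nat.le_mul_of_pos_right _ q1).trans hW1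
  have w2 : (R.length + 1) ^ (L.length / τ) ≤ W := (Nat.le_mul_of_pos_left _ q2).trans hW1
  -- the first phase
  have f1 := phase_sum E τ W ∅ L R (by rw [p1]; exact w1) hL (by simp)
  simp only [Finset.empty_union] at f1
  have f2 : (phase E τ W L R).length ≤ (L.length + 1) ^ (R.length / τ) := by
    have := phase_length E τ W L R (by rw [p1]; exact w1)
    rwa [p1] at this
  -- the second phase
  have s1 : ∀ s' ∈ phase E τ W L R,
      ((phase (sw E) τ W s'.2 s'.1).map (fun q => cnt E q.2.toFinset q.1.toFinset)).sum =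
        cnt E s'.1.toFinset s'.2.toFinset := by
    intro s' hs
    have n2 : s'.2.Nodup := hR.sublist (phase_good hs).2.1
    have := phase_sum (sw E) τ W ∅ s'.2 s'.1 ((p2 s' hs).trans w2) n2 (by simp)
    simp only [Finset.empty_union, cnt_sw] at this
    rw [← this]
  have s2 : ∀ s' ∈ phase E τ W L R, (phase (sw E) τ W s'.2 s'.1).length ≤
      (R.length + 1) ^ (L.length / τ) := by
    intro s' hs
    exact (phase_length (sw E) τ W s'.2 s'.1 ((p2 s' hs).trans w2)).trans (p2 s' hs)
  have m1 : ∀ s' ∈ phase E τ W L R, mid E τ t W s' ≤ cnt E s'.1.toFinset s'.2.toFinset := by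
    intro s' hs
    rw [← s1 s' hs, mid]
    exact sum_le_sum _ _ _ fun q hq =>
      (leaf_bound E δ s t W L R hL hR hτ hs hq hδ hsp hW2).1
  have m2 : ∀ s' ∈ phase E τ W L R, 2 ^ t * cnt E s'.1.toFinset s'.2.toFinset ≤
      2 ^ t * mid E τ t W s' + (R.length + 1) ^ (L.length / τ) * 2 ^ (R.length + s) := by
    intro s' hs
    rw [← s1 s' hs, mid]
    refine (sum_defect _ _ _ _ (2 ^ (R.length + s)) fun q hq =>
      (leaf_bound E δ s t W L R hL hR hτ hs hq hδ hsp hW2).2).trans ?_
    exact Nat.add_le_add_left (Nat.mul_le_mul_right _ (s2 s' hs)) _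
  constructor
  · rw [← f1, total]
    exact sum_le_sum _ _ _ m1
  · rw [← f1, total]
    refine (sum_defect _ _ _ _ _ m2).trans (Nat.add_le_add_left ?_ _)
    rw [Nat.mul_assoc]
    exact Nat.mul_le_mul_right _ f2

/-- The relative error is at most `1 / N`. -/
theorem total_approx (N : ℕ) (hN : 1 ≤ N)
    (ht : (L.length + 1) ^ (R.length / max 1 (δ / 8)) *
      (R.length + 1) ^ (L.length / max 1 (δ / 8)) * 2 ^ s * N ≤ 2 ^ t) :
    Approx N (total E (max 1 (δ / 8)) t W L R : ℕ) (cnt E L.toFinset R.toFinset : ℕ) := by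
  obtain ⟨h1, h2⟩ := total_correct E δ s t W L R hL hR hδ hsp hW1 hW2
  set Z := total E (max 1 (δ / 8)) t W L R
  set v := cnt E L.toFinset R.toFinset with hv
  set X := (L.length + 1) ^ (R.length / max 1 (δ / 8)) *
      (R.length + 1) ^ (L.length / max 1 (δ / 8))
  have h3 : 2 ^ R.length ≤ v := by
    have := le_cnt E L.toFinset R.toFinset
    rwa [List.toFinset_card_of_nodup hR] at this
  have h4 : 2 ^ t * (N * v) ≤ 2 ^ t * (N * Z + v) := by
    calc 2 ^ t * (N * v) = N * (2 ^ t * v) := by ring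
      _ ≤ N * (2 ^ t * Z + X * 2 ^ (R.length + s)) := Nat.mul_le_mul_left _ h2
      _ = 2 ^ t * (N * Z) + X * 2 ^ s * N * 2 ^ R.length := by rw [pow_add]; ring
      _ ≤ 2 ^ t * (N * Z) + 2 ^ t * v := by
          exact Nat.add_le_add_left (Nat.mul_le_mul ht h3) _
      _ = 2 ^ t * (N * Z + v) := by ring
  have h5 : N * v ≤ N * Z + v := Nat.le_of_mul_le_mul_left h4 (by positivity)
  have h6 : (N : ℝ) * v ≤ N * Z + v := by exact_mod_cast h5
  have h7 : (Z : ℝ) ≤ v := by exact_mod_cast h1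
  have hN0 : (0 : ℝ) < N := by exact_mod_cast hN
  have hv0 : (0 : ℝ) ≤ v := Nat.cast_nonneg _
  constructor
  · have : (1 - 1 / (N : ℝ)) * v = (N * v - v) / N := by field_simp
    rw [this, div_le_iff₀ hN0]
    linarith
  · have : 0 ≤ 1 / (N : ℝ) * v := by positivity
    linarith

end

end Pool.Agent.J4H63.DB
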