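import Pool.Agent.J4H63.DB.Final

/-!
# Regular, nearly regular and nearly half dense graphs
-/

namespace Pool.Agent.J4H63.DB

open Pool.Agent.NPC Pool.Agent.H49R2.PC

theorem eBetween_rows (E : List (ℕ × ℕ)) (A B : Finset ℕ) :
    eBetween E A B = ∑ u ∈ A, (B.filter (fun v => (u, v) ∈ E)).card := by
  rw [eBetween, Finset.card_filter, Finset.sum_product]
  refine Finset.sum_congr rfl fun u _ => ?_
  rw [Finset.card_filter]

theorem eBetween_cols (E : List (ℕ × ℕ)) (A B : Finset ℕ) :
    eBetween E A B = ∑ v ∈ B, (A.filter (fun u => (u, v) ∈ E)).card := by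
  rw [eBetween, Finset.card_filter, Finset.sum_product_right]
  refine Finset.sum_congr rfl fun u _ => ?_
  rw [Finset.card_filter]

theorem degL_eq (G : BGr) (u : ℕ) :
    degL G u = (G.2.1.toFinset.filter (fun v => (u, v) ∈ G.2.2)).card := by
  rw [degL, eBetween_rows, Finset.sum_singleton]

theorem degR_eq (G : BGr) (v : ℕ) :
    degR G v = (G.1.toFinset.filter (fun u => (u, v) ∈ G.2.2)).card := by
  rw [degR, eBetween_cols, Finset.sum_singleton]

theorem filter_card_add {B R : Finset ℕ} (hB : B ⊆ R) (p : ℕ → Prop) [DecidablePred p] :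
    (R.filter p).card = (B.filter p).card + ((R \ B).filter p).card := by
  rw [← Finset.card_union_of_disjoint]
  · congr 1
    ext x
    simp only [Finset.mem_filter, Finset.mem_union, Finset.mem_sdiff]
    constructor
    · rintro ⟨h1, h2⟩
      by_cases h : x ∈ B
      · left; exact ⟨h, h2⟩
      · right; exact ⟨⟨h1, h⟩, h2⟩
    · rintro (⟨h1, h2⟩ | ⟨⟨h1, _⟩, h2⟩)
      · exact ⟨hB h1, h2⟩
      · exact ⟨h1, h2⟩
  · rw [Finset.disjoint_left]
    intro x h1 h2
    simp only [Finset.mem_filter, Finset.mem_sdiff] at h1 h2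
    exact h2.1.2 h1.1

theorem eBetween_split (E : List (ℕ × ℕ)) (A : Finset ℕ) {B R : Finset ℕ} (hB : B ⊆ R) :
    eBetween E A R = eBetween E A B + eBetween E A (R \ B) := by
  rw [eBetween_rows, eBetween_rows, eBetween_rows, ← Finset.sum_add_distrib]
  exact Finset.sum_congr rfl fun u _ => filter_card_add hB _

theorem eBetween_mono (E : List (ℕ × ℕ)) {A A' : Finset ℕ} (hA : A ⊆ A') (B : Finset ℕ) :
    eBetween E A B ≤ eBetween E A' B := by
  rw [eBetween_rows, eBetween_rows]
  exact Finset.sum_le_sum_of_subset hA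

theorem NearRegular.robust {k C : ℕ} {G : BGr} (hG : IsBip G) (h : NearRegular k C G) :
    Robust k (k * C) G := by
  obtain ⟨D, h1, h2⟩ := h
  intro A hA B hB
  set n := nV G with hn
  set c := C * Nat.log 2 n with hc
  set b := G.2.1.length with hb
  have hbc : G.2.1.toFinset.card = b := List.toFinset_card_of_nodup hG.2.1
  have hBc : B.card ≤ b := by rw [← hbc]; exact Finset.card_le_card hB
  rcases A.eq_empty_or_nonempty with rfl | hne
  · rw [Finset.card_empty, Nat.zero_add]
    calc n * B.card ≤ n * (b + k * C * Nat.log 2 n) := Nat.mul_le_mul_left _ (by omega)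
      _ ≤ _ := Nat.le_add_left _ _
  obtain ⟨u₀, hu₀, hmin⟩ := Finset.exists_min_image A (degL G) hne
  set δ := degL G u₀ with hδ
  obtain ⟨h3, h4⟩ := h1 u₀ (List.mem_toFinset.1 (hA hu₀))
  have e1 : A.card * δ ≤ eBetween G.2.2 A G.2.1.toFinset := by
    rw [eBetween_rows, ← smul_eq_mul]
    refine Finset.card_nsmul_le_sum _ _ _ fun u hu => ?_
    rw [← degL_eq]
    exact hmin u hu
  have e2 : eBetween G.2.2 A (G.2.1.toFinset \ B) ≤ (b - B.card) * (δ + c) := by
    refine (eBetween_mono G.2.2 hA _).trans ?_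
    rw [eBetween_cols]
    refine (Finset.sum_le_card_nsmul _ _ (δ + c) fun v hv => ?_).trans ?_
    · rw [← degR_eq]
      rw [Finset.mem_sdiff, List.mem_toFinset] at hv
      exact (h2 v hv.1).trans h4
    · rw [smul_eq_mul, Finset.card_sdiff_of_subset hB, hbc]
  rw [eBetween_split G.2.2 A hB] at e1
  obtain ⟨r, hr⟩ : ∃ r, b = B.card + r := ⟨b - B.card, by omega⟩
  have hr' : b - B.card = r := by omega
  rw [hr'] at e2
  have hrn : r ≤ n := by
    have : n = G.1.length + b := rfl
    omega
  rcases Nat.le_total A.card r with hle | hle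
  · calc n * (A.card + B.card) ≤ n * (b + k * C * Nat.log 2 n) :=
          Nat.mul_le_mul_left _ (by omega)
      _ ≤ _ := Nat.le_add_left _ _
  · obtain ⟨z, hz⟩ : ∃ z, A.card = r + z := ⟨A.card - r, by omega⟩
    have e3 : z * δ ≤ eBetween G.2.2 A B + n * c := by
      have e4 : (r + z) * δ ≤ eBetween G.2.2 A B + r * (δ + c) := by
        rw [← hz]; omega
      have e5 : r * c ≤ n * c := Nat.mul_le_mul_right _ hrn
      rw [Nat.add_mul, Nat.mul_add] at e4
      omega
    have e6 : n * z ≤ k * eBetween G.2.2 A B + n * (k * c) := by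
      calc n * z ≤ k * δ * z := Nat.mul_le_mul_right _ h3
        _ = k * (z * δ) := by ring
        _ ≤ k * (eBetween G.2.2 A B + n * c) := Nat.mul_le_mul_left _ e3
        _ = k * eBetween G.2.2 A B + n * (k * c) := by ring
    calc n * (A.card + B.card) = n * b + n * z := by rw [hz, hr]; ring
      _ ≤ n * b + (k * eBetween G.2.2 A B + n * (k * c)) := Nat.add_le_add_left e6 _
      _ = k * eBetween G.2.2 A B + n * (b + k * C * Nat.log 2 n) := by rw [hc]; ring

/-- the numerical inequality behind the half dense case -/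
theorem half_ineq {α β m c e x : ℤ} (hsum : α + β = m + x) (hβ : β ≤ m) (hαβ : α ≤ β)
    (hcm : 2 * c ≤ m) (hc : 0 ≤ c) (hx : c ≤ x) (hα : 0 ≤ α) (hm : 0 ≤ m)
    (he : α * (2 * β - m - c) ≤ 2 * e) : m * (x - c) ≤ 4 * e := by
  have hβ' : β = m + x - α := by linarith
  subst hβ'
  rcases le_total m (2 * α) with h | h
  · have h1 : x - c ≤ 2 * (m + x - α) - m - c := by linarith
    have h2 : 0 ≤ x - c := by linarith
    nlinarith [mul_nonneg (by linarith : (0 : ℤ) ≤ 2 * α - m) h2,
      mul_nonneg hα (by linarith : (0 : ℤ) ≤ 2 * (m + x - α) - m - c - (x - c))]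
  · have h3 : 0 ≤ α - x := by linarith
    nlinarith [mul_nonneg h3 (by linarith : (0 : ℤ) ≤ m - 2 * α),
      mul_nonneg hc (by linarith : (0 : ℤ) ≤ m - 2 * α), mul_nonneg hm (by linarith : (0 : ℤ) ≤ x)]

theorem NearHalf.robust {C : ℕ} {G : BGr} (hG : IsBip G) (h : NearHalf C G) :
    Robust 8 (2 * C) G := by
  obtain ⟨h0, h1, h2⟩ := h
  intro A hA B hB
  set n := nV G with hn
  set c := C * Nat.log 2 n with hc
  set m := G.2.1.length with hm
  have hnm : n = 2 * m := by rw [hn, nV, h0]; ring
  have hRc : G.2.1.toFinset.card = m := List.toFinset_card_of_nodup hG.2.1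
  have hLc : G.1.toFinset.card = m := by rw [List.toFinset_card_of_nodup hG.1, h0]
  have hBc : B.card ≤ m := by rw [← hRc]; exact Finset.card_le_card hB
  have hAc : A.card ≤ m := by rw [← hLc]; exact Finset.card_le_card hA
  have hgoal : (2 * C) * Nat.log 2 n = 2 * c := by rw [hc]; ring
  rw [hgoal]
  rcases Nat.le_total (A.card + B.card) (m + 2 * c) with hle | hle
  · calc n * (A.card + B.card) ≤ n * (m + 2 * c) := Nat.mul_le_mul_left _ hle
      _ ≤ _ := Nat.le_add_left _ _
  obtain ⟨x, hx⟩ : ∃ x, A.card + B.card = m + x := ⟨A.card + B.card - m, by omega⟩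
  have hcm : 2 * c ≤ m := by omega
  have key : (m : ℤ) * (x - c) ≤ 4 * eBetween G.2.2 A B := by
    rcases Nat.le_total A.card B.card with hAB | hAB
    · refine half_ineq (α := A.card) (β := B.card) (by exact_mod_cast hx) (by exact_mod_cast hBc)
        (by exact_mod_cast hAB) (by exact_mod_cast hcm) (Nat.cast_nonneg _)
        (by exact_mod_cast (by omega : c ≤ x)) (Nat.cast_nonneg _) (Nat.cast_nonneg _) ?_
      have e1 : ∀ u ∈ A, (2 * (B.card : ℤ) - m - c) ≤
          2 * ((B.filter (fun v => (u, v) ∈ G.2.2)).card : ℤ) := by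
        intro u hu
        have e2 := h1 u (List.mem_toFinset.1 (hA hu))
        rw [degL_eq, filter_card_add hB, h0] at e2
        have e3 : ((G.2.1.toFinset \ B).filter (fun v => (u, v) ∈ G.2.2)).card ≤ m - B.card := by
          refine (Finset.card_filter_le _ _).trans ?_
          rw [Finset.card_sdiff_of_subset hB, hRc]
        have e4 : m ≤ 2 * ((B.filter (fun v => (u, v) ∈ G.2.2)).card + (m - B.card)) + c := by
          omega
        omega
      rw [eBetween_rows]
      push_cast
      rw [Finset.mul_sum]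
      calc (A.card : ℤ) * (2 * (B.card : ℤ) - m - c)
          = ∑ _u ∈ A, (2 * (B.card : ℤ) - m - c) := by rw [Finset.sum_const, nsmul_eq_mul]
        _ ≤ _ := Finset.sum_le_sum e1
    · refine half_ineq (α := B.card) (β := A.card) (by rw [add_comm]; exact_mod_cast hx)
        (by exact_mod_cast hAc)
        (by exact_mod_cast hAB) (by exact_mod_cast hcm) (Nat.cast_nonneg _)
        (by exact_mod_cast (by omega : c ≤ x)) (Nat.cast_nonneg _) (Nat.cast_nonneg _) ?_
      have e1 : ∀ v ∈ B, (2 * (A.card : ℤ) - m - c) ≤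
          2 * ((A.filter (fun u => (u, v) ∈ G.2.2)).card : ℤ) := by
        intro v hv
        have e2 := h2 v (List.mem_toFinset.1 (hB hv))
        rw [degR_eq, filter_card_add hA, h0] at e2
        have e3 : ((G.1.toFinset \ A).filter (fun u => (u, v) ∈ G.2.2)).card ≤ m - A.card := by
          refine (Finset.card_filter_le _ _).trans ?_
          rw [Finset.card_sdiff_of_subset hA, hLc]
        have e4 : m ≤ 2 * ((A.filter (fun u => (u, v) ∈ G.2.2)).card + (m - A.card)) + c := by
          omega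
        omega
      rw [eBetween_cols]
      push_cast
      rw [Finset.mul_sum]
      calc (B.card : ℤ) * (2 * (A.card : ℤ) - m - c)
          = ∑ _v ∈ B, (2 * (A.card : ℤ) - m - c) := by rw [Finset.sum_const, nsmul_eq_mul]
        _ ≤ _ := Finset.sum_le_sum e1
  have hcx : c ≤ x := by omega
  have key' : m * (x - c) ≤ 4 * eBetween G.2.2 A B := by
    have : ((m * (x - c) : ℕ) : ℤ) ≤ ((4 * eBetween G.2.2 A B : ℕ) : ℤ) := by
      push_cast [Nat.cast_sub hcx]
      exact key
    exact_mod_cast this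
  obtain ⟨y, hy⟩ : ∃ y, x = c + y := ⟨x - c, by omega⟩
  have hy' : x - c = y := by omega
  rw [hy'] at key'
  rw [hx, hnm, hy]
  calc 2 * m * (m + (c + y)) = 2 * m * (m + c) + 2 * (m * y) := by ring
    _ ≤ 2 * m * (m + 2 * c) + 2 * (4 * eBetween G.2.2 A B) :=
        Nat.add_le_add (Nat.mul_le_mul_left _ (by omega)) (Nat.mul_le_mul_left _ key')
    _ = 8 * eBetween G.2.2 A B + 2 * m * (m + 2 * c) := by ring

/-- `d`-regular graphs are spread. -/
theorem spread_of_regular {d : ℕ} {G : BGr} (hG : IsBip G) (hL : ∀ u ∈ G.1, degL G u = d)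
    (hR : ∀ v ∈ G.2.1, degR G v = d) : Spread d 0 G := by
  intro A hA B hB
  have hbc : G.2.1.toFinset.card = G.2.1.length := List.toFinset_card_of_nodup hG.2.1
  have hBc : B.card ≤ G.2.1.length := by rw [← hbc]; exact Finset.card_le_card hB
  have e1 : A.card * d ≤ eBetween G.2.2 A G.2.1.toFinset := by
    rw [eBetween_rows, ← smul_eq_mul]
    refine Finset.card_nsmul_le_sum _ _ _ fun u hu => ?_
    rw [← degL_eq]
    exact (hL u (List.mem_toFinset.1 (hA hu))).ge
  have e2 : eBetween G.2.2 A (G.2.1.toFinset \ B) ≤ (G.2.1.length - B.card) * d := by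
    refine (eBetween_mono G.2.2 hA _).trans ?_
    rw [eBetween_cols]
    refine (Finset.sum_le_card_nsmul _ _ d fun v hv => ?_).trans ?_
    · rw [← degR_eq]
      rw [Finset.mem_sdiff, List.mem_toFinset] at hv
      exact (hR v hv.1).le
    · rw [smul_eq_mul, Finset.card_sdiff_of_subset hB, hbc]
  rw [eBetween_split G.2.2 A hB] at e1
  obtain ⟨r, hr⟩ : ∃ r, G.2.1.length = B.card + r := ⟨G.2.1.length - B.card, by omega⟩
  have hr' : G.2.1.length - B.card = r := by omega
  rw [hr'] at e2
  rw [Nat.add_zero, hr, Nat.mul_add, Nat.mul_add, Nat.mul_comm d A.card, Nat.mul_comm d r]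
  omega

end Pool.Agent.J4H63.DB
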