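import Pool.Agent.J4H63.DB.Defs

/-!
# Counting independent sets inside two sets of vertices
-/

namespace Pool.Agent.J4H63.DB

/-- the number of independent sets inside two sets of vertices -/
def cnt (E : List (ℕ × ℕ)) (A B : Finset ℕ) : ℕ := (indep E A B).card

/-- the edges, reversed -/
def sw (E : List (ℕ × ℕ)) : List (ℕ × ℕ) := E.map Prod.swap

theorem mem_sw {E : List (ℕ × ℕ)} {u v : ℕ} : (u, v) ∈ sw E ↔ (v, u) ∈ E := by
  simp only [sw, List.mem_map, Prod.exists, Prod.swap_prod_mk, Prod.mk.injEq]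
  constructor
  · rintro ⟨a, b, h, rfl, rfl⟩; exact h
  · intro h; exact ⟨v, u, h, rfl, rfl⟩

theorem mem_indep {E : List (ℕ × ℕ)} {A B : Finset ℕ} {p : Finset ℕ × Finset ℕ} :
    p ∈ indep E A B ↔ p.1 ⊆ A ∧ p.2 ⊆ B ∧ ∀ u ∈ p.1, ∀ v ∈ p.2, (u, v) ∉ E := by
  simp only [indep, Finset.mem_filter, Finset.mem_product, Finset.mem_powerset, and_assoc]

theorem cnt_sw (E : List (ℕ × ℕ)) (A B : Finset ℕ) : cnt (sw E) B A = cnt E A B := by
  refine Finset.card_bij (fun p _ => p.swap) ?_ ?_ ?_
  · intro p hp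
    rw [mem_indep] at hp ⊢
    refine ⟨hp.2.1, hp.1, fun u hu v hv h => ?_⟩
    exact hp.2.2 v hv u hu (mem_sw.2 h)
  · intro p _ q _ h
    exact Prod.swap_injective h
  · intro p hp
    refine ⟨p.swap, ?_, Prod.swap_swap p⟩
    rw [mem_indep] at hp ⊢
    refine ⟨hp.2.1, hp.1, fun u hu v hv h => ?_⟩
    exact hp.2.2 v hv u hu (mem_sw.1 h)

theorem cnt_insert (E : List (ℕ × ℕ)) {A : Finset ℕ} (B : Finset ℕ) {v : ℕ} (hv : v ∉ A) :
    cnt E (insert v A) B = cnt E A B + cnt E A (B.filter (fun w => (v, w) ∉ E)) := by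
  have h1 : indep E (insert v A) B = indep E A B ∪
      (indep E A (B.filter (fun w => (v, w) ∉ E))).image (fun p => (insert v p.1, p.2)) := by
    ext p
    rw [Finset.mem_union, Finset.mem_image, mem_indep, mem_indep]
    constructor
    · rintro ⟨h1, h2, h3⟩
      by_cases hvp : v ∈ p.1
      · right
        refine ⟨(p.1.erase v, p.2), ?_, ?_⟩
        · rw [mem_indep]
          refine ⟨?_, ?_, ?_⟩
          · intro u hu
            rw [Finset.mem_erase] at hu
            have := h1 hu.2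
            rw [Finset.mem_insert] at this
            exact this.resolve_left hu.1
          · intro w hw
            rw [Finset.mem_filter]
            exact ⟨h2 hw, h3 v hvp w hw⟩
          · intro u hu w hw
            rw [Finset.mem_erase] at hu
            exact h3 u hu.2 w hw
        · rw [Finset.insert_erase hvp]
      · left
        refine ⟨?_, h2, h3⟩
        intro u hu
        have := h1 hu
        rw [Finset.mem_insert] at this
        refine this.resolve_left ?_
        rintro rfl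
        exact hvp hu
    · rintro (⟨h1, h2, h3⟩ | ⟨q, hq, rfl⟩)
      · exact ⟨h1.trans (Finset.subset_insert _ _), h2, h3⟩
      · rw [mem_indep] at hq
        obtain ⟨h1, h2, h3⟩ := hq
        refine ⟨Finset.insert_subset_insert _ h1, fun w hw => (Finset.mem_filter.1 (h2 hw)).1, ?_⟩
        intro u hu w hw
        rw [Finset.mem_insert] at hu
        rcases hu with rfl | hu
        · exact (Finset.mem_filter.1 (h2 hw)).2
        · exact h3 u hu w hw
  rw [cnt, h1, Finset.card_union_of_disjoint, Finset.card_image_of_injOn]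
  · rfl
  · intro p hp q hq h
    rw [Finset.mem_coe, mem_indep] at hp hq
    simp only [Prod.mk.injEq] at h
    have hp' : v ∉ p.1 := fun h' => hv (hp.1 h')
    have hq' : v ∉ q.1 := fun h' => hv (hq.1 h')
    refine Prod.ext ?_ h.2
    rw [← Finset.erase_insert hp', h.1, Finset.erase_insert hq']
  · rw [Finset.disjoint_left]
    intro p hp hp2
    rw [mem_indep] at hp
    rw [Finset.mem_image] at hp2
    obtain ⟨q, _, rfl⟩ := hp2
    exact hv (hp.1 (Finset.mem_insert_self _ _))

theorem cnt_insert_right (E : List (ℕ × ℕ)) (A : Finset ℕ) {B : Finset ℕ} {w : ℕ} (hw : w ∉ B) :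
    cnt E A (insert w B) = cnt E A B + cnt E (A.filter (fun v => (v, w) ∉ E)) B := by
  have h : A.filter (fun v => (w, v) ∉ sw E) = A.filter (fun v => (v, w) ∉ E) := by
    ext v
    rw [Finset.mem_filter, Finset.mem_filter, mem_sw]
  rw [← cnt_sw, cnt_insert (sw E) A hw, cnt_sw, h, cnt_sw]

theorem cnt_mono (E : List (ℕ × ℕ)) {A A' B B' : Finset ℕ} (hA : A ⊆ A') (hB : B ⊆ B') :
    cnt E A B ≤ cnt E A' B' := by
  refine Finset.card_le_card fun p hp => ?_
  rw [mem_indep] at hp ⊢
  exact ⟨hp.1.trans hA, hp.2.1.trans hB, hp.2.2⟩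

theorem cnt_of_no_edge (E : List (ℕ × ℕ)) (A B : Finset ℕ)
    (h : ∀ u ∈ A, ∀ v ∈ B, (u, v) ∉ E) : cnt E A B = 2 ^ (A.card + B.card) := by
  have : indep E A B = A.powerset ×ˢ B.powerset := by
    ext p
    rw [mem_indep, Finset.mem_product, Finset.mem_powerset, Finset.mem_powerset]
    constructor
    · rintro ⟨h1, h2, _⟩; exact ⟨h1, h2⟩
    · rintro ⟨h1, h2⟩; exact ⟨h1, h2, fun u hu v hv => h u (h1 hu) v (h2 hv)⟩
  rw [cnt, this, Finset.card_product, Finset.card_powerset, Finset.card_powerset, pow_add]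

theorem cnt_le (E : List (ℕ × ℕ)) (A B : Finset ℕ) : cnt E A B ≤ 2 ^ (A.card + B.card) := by
  refine (Finset.card_filter_le _ _).trans ?_
  rw [Finset.card_product, Finset.card_powerset, Finset.card_powerset, pow_add]

theorem le_cnt (E : List (ℕ × ℕ)) (A B : Finset ℕ) : 2 ^ B.card ≤ cnt E A B := by
  have h : cnt E ∅ B ≤ cnt E A B := cnt_mono E (Finset.empty_subset _) (Finset.Subset.refl _)
  rwa [cnt_of_no_edge E ∅ B (by simp), Finset.card_empty, zero_add] at h

theorem cnt_insert_le (E : List (ℕ × ℕ)) (A B : Finset ℕ) (v : ℕ) :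
    cnt E (insert v A) B ≤ 2 * cnt E A B := by
  by_cases hv : v ∈ A
  · rw [Finset.insert_eq_of_mem hv]; omega
  · rw [cnt_insert E B hv]
    have := cnt_mono E (Finset.Subset.refl A) (Finset.filter_subset (fun w => (v, w) ∉ E) B)
    omega

/-- An edge reduces the number of independent sets. -/
theorem cnt_edge_le (E : List (ℕ × ℕ)) {A B : Finset ℕ} {v w : ℕ} (hv : v ∉ A) (hw : w ∉ B)
    (he : (v, w) ∈ E) : cnt E (insert v A) (insert w B) ≤ 3 * cnt E A B := by
  rw [cnt_insert E _ hv]
  have h1 : (insert w B).filter (fun w => (v, w) ∉ E) ⊆ B := by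
    intro x hx
    rw [Finset.mem_filter, Finset.mem_insert] at hx
    rcases hx.1 with rfl | h
    · exact absurd he hx.2
    · exact h
  have h2 := cnt_mono E (Finset.Subset.refl A) h1
  have h3 : cnt E A (insert w B) ≤ 2 * cnt E A B := by
    rw [← cnt_sw E A B, ← cnt_sw E A]
    exact cnt_insert_le _ _ _ _
  omega

/-- Disjoint edges reduce the number of independent sets by a factor of at least `3 / 4` each. -/
theorem cnt_matching_le (E : List (ℕ × ℕ)) (A B : Finset ℕ) (M : List (ℕ × ℕ))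
    (hM : ∀ e ∈ M, e ∈ E ∧ e.1 ∈ A ∧ e.2 ∈ B) (h1 : (M.map Prod.fst).Nodup)
    (h2 : (M.map Prod.snd).Nodup) :
    4 ^ M.length * cnt E A B ≤ 3 ^ M.length * 2 ^ (A.card + B.card) := by
  induction M generalizing A B with
  | nil => simpa using cnt_le E A B
  | cons e M ih =>
    obtain ⟨v, w⟩ := e
    simp only [List.map_cons, List.nodup_cons, List.mem_map, not_exists, not_and] at h1 h2
    obtain ⟨hE, hv, hw⟩ := hM (v, w) (by simp)
    simp only at hE hv hw
    have h3 := ih (A.erase v) (B.erase w) (fun f hf => by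
      obtain ⟨a, b, c⟩ := hM f (List.mem_cons_of_mem _ hf)
      exact ⟨a, Finset.mem_erase.2 ⟨h1.1 f hf, b⟩, Finset.mem_erase.2 ⟨h2.1 f hf, c⟩⟩) h1.2 h2.2
    have h4 := cnt_edge_le E (Finset.notMem_erase v A) (Finset.notMem_erase w B) hE
    rw [Finset.insert_erase hv, Finset.insert_erase hw] at h4
    rw [Finset.card_erase_of_mem hv, Finset.card_erase_of_mem hw] at h3
    have h5 : 0 < A.card := Finset.card_pos.2 ⟨v, hv⟩
    have h6 : 0 < B.card := Finset.card_pos.2 ⟨w, hw⟩
    have h7 : 2 ^ (A.card + B.card) = 4 * 2 ^ (A.card - 1 + (B.card - 1)) := by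
      rw [show A.card + B.card = (A.card - 1 + (B.card - 1)) + 2 by omega, pow_add]; ring
    rw [List.length_cons, pow_succ, pow_succ, h7]
    calc 4 ^ M.length * 4 * cnt E A B ≤ 4 ^ M.length * 4 * (3 * cnt E (A.erase v) (B.erase w)) :=
          Nat.mul_le_mul_left _ h4
      _ = 12 * (4 ^ M.length * cnt E (A.erase v) (B.erase w)) := by ring
      _ ≤ 12 * (3 ^ M.length * 2 ^ (A.card - 1 + (B.card - 1))) := Nat.mul_le_mul_left _ h3
      _ = 3 ^ M.length * 3 * (4 * 2 ^ (A.card - 1 + (B.card - 1))) := by ring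

end Pool.Agent.J4H63.DB
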