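import Pool.Agent.H49R2.PC.Defs

/-!
# Counting independent sets of bipartite graphs: definitions

Bit strings, polynomial time (`PolyTime`: Turing machines) and the codes `bits` of structured data
are in `Pool/Agent/NPC/Defs.lean`, the approximation predicate `Approx` is in
`Pool/Agent/H49R2/PC/Defs.lean`.
-/

namespace Pool.Agent.J4H63.DB

open Pool.Agent.NPC Pool.Agent.H49R2.PC

/-- A bipartite graph with given parts: the list of the vertices of the left part, the list of the
vertices of the right part, and the list of the edges, an edge `(u, v)` joining the left vertex `u`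
to the right vertex `v`.  (Vertices are named by natural numbers; the left vertex `u` and the right
vertex `u` are different vertices.) -/
abbrev BGr : Type := List ℕ × List ℕ × List (ℕ × ℕ)

/-- The two lists of vertices have no repetitions and the edges join listed vertices.  (The order
and the repetitions in the list of edges have no meaning, so this is a finite simple graph.) -/
def IsBip (G : BGr) : Prop :=
  G.1.Nodup ∧ G.2.1.Nodup ∧ ∀ e ∈ G.2.2, e.1 ∈ G.1 ∧ e.2 ∈ G.2.1

/-- The number of vertices. -/
def nV (G : BGr) : ℕ := G.1.length + G.2.1.length

/-- The independent sets of the bipartite graph with the edges `E`, inside the set `A` of left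
vertices and the set `B` of right vertices: the pairs of subsets without an edge between them. -/
def indep (E : List (ℕ × ℕ)) (A B : Finset ℕ) : Finset (Finset ℕ × Finset ℕ) :=
  (A.powerset ×ˢ B.powerset).filter (fun p => ∀ u ∈ p.1, ∀ v ∈ p.2, (u, v) ∉ E)

/-- The number `i(G)` of the independent sets of `G`. -/
def numIS (G : BGr) : ℕ := (indep G.2.2 G.1.toFinset G.2.1.toFinset).card

/-- The number of edges between the set `A` of left vertices and the set `B` of right vertices. -/
def eBetween (E : List (ℕ × ℕ)) (A B : Finset ℕ) : ℕ :=
  ((A ×ˢ B).filter (fun p => p ∈ E)).card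

/-- The degree of the left vertex `u`. -/
def degL (G : BGr) (u : ℕ) : ℕ := eBetween G.2.2 {u} G.2.1.toFinset

/-- The degree of the right vertex `v`. -/
def degR (G : BGr) (v : ℕ) : ℕ := eBetween G.2.2 G.1.toFinset {v}

/-- Between a set `A` of left vertices and a set `B` of right vertices there are at least
`δ (|A| + |B| - |R| - s)` edges, for all `A` and `B`, where `R` is the right part. -/
def Spread (δ s : ℕ) (G : BGr) : Prop :=
  ∀ A ⊆ G.1.toFinset, ∀ B ⊆ G.2.1.toFinset,
    δ * (A.card + B.card) ≤ eBetween G.2.2 A B + δ * (G.2.1.length + s)

/-- `f` has an FPTAS on the class `C` of inputs.  The relative error is `ε = 1 / N`, where `N` is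
the length of the string `w`; the output is computed in time polynomial in the length of the whole
input `(G, w)`, that is, polynomial in the length of the code of `G` and `1 / ε`. -/
def HasFPTASOn {α : Type} [TEnc α] (C : α → Prop) (f : α → ℕ) : Prop :=
  ∃ (F : α × List Bool → ℕ) (A : List Bool → List Bool), PolyTime A ∧
    (∀ s, A (bits s) = bits (F s)) ∧
    ∀ G, C G → ∀ w : List Bool, w ≠ [] → Approx w.length (F (G, w)) (f G)

end Pool.Agent.J4H63.DB
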