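import Pool.Agent.J4H63.DB.PolyT

/-!
# The algorithm for regular and nearly regular bipartite graphs
-/

namespace Pool.Agent.J4H63.DB

open Pool.Agent.NPC Pool.Agent.H49R2.PC

/-- the cut-off parameter for a given pad length -/
def tOf (W : ℕ) : ℕ := (W.size - 1) / 8

/-- the algorithm -/
def alg (x : BGr × ℕ × List Bool) : ℕ :=
  total x.1.2.2 (max 1 (x.2.1 / 8)) (tOf x.2.2.length) x.2.2.length x.1.1 x.1.2.1

theorem p_tOf {α : Type} [TEnc α] {W : α → ℕ} (hW : NPC.Poly W) :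
    NPC.Poly (fun a => tOf (W a)) := by
  have h1 : NPC.Poly (fun a => (W a).size) :=
    (Poly.length (Poly.natBits hW)).congr fun a => (Nat.size_eq_bits_len _)
  exact Poly.div (Poly.sub h1 (NPC.Poly.const 1)) (NPC.Poly.const 8)

theorem p_alg' {α : Type} [TEnc α] {G : α → BGr} {δ W : α → ℕ} (hG : NPC.Poly G)
    (hδ : NPC.Poly δ) (hW : UPoly W) :
    NPC.Poly (fun a => total (G a).2.2 (max 1 (δ a / 8)) (tOf (W a)) (W a) (G a).1 (G a).2.1) :=
  p_total (Poly.snd (Poly.snd hG)) (Poly.max (NPC.Poly.const 1) (Poly.div hδ (NPC.Poly.const 8)))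
    (p_tOf hW.toPoly) hW (Poly.fst hG) (Poly.fst (Poly.snd hG))

theorem p_alg : NPC.Poly alg :=
  p_alg' (Poly.fst Poly.id) (Poly.fst (Poly.snd Poly.id))
    (UPoly.length (Poly.snd (Poly.snd Poly.id)))

theorem tOf_spec {W X Y : ℕ} (hY : 2 ≤ Y) (hX : X ≤ Y ^ 16) (hW : Y ^ 136 ≤ W) :
    2 ^ (8 * tOf W) ≤ W ∧ X ≤ 2 ^ tOf W := by
  have hW1 : 1 ≤ W := (Nat.one_le_pow _ _ (by omega)).trans hW
  have h1 : 0 < W.size := Nat.size_pos.2 hW1
  have h2 : 2 ^ (W.size - 1) ≤ W := by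
    rw [← Nat.lt_size]
    omega
  constructor
  · refine (Nat.pow_le_pow_right (by norm_num) ?_).trans h2
    unfold tOf
    omega
  · have h3 : W < 2 ^ (8 * (tOf W + 1)) := by
      refine (Nat.lt_size_self W).trans_le (Nat.pow_le_pow_right (by norm_num) ?_)
      unfold tOf
      omega
    have h4 : (Y ^ 17) ^ 8 < (2 ^ (tOf W + 1)) ^ 8 := by
      rw [← pow_mul, ← pow_mul, Nat.mul_comm (tOf W + 1) 8]
      exact hW.trans_lt h3
    have h5 : Y ^ 17 < 2 ^ (tOf W + 1) := lt_of_pow_lt_pow_left₀ 8 (by positivity) h4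
    have h6 : 2 * X ≤ Y ^ 17 := by
      calc 2 * X ≤ Y * Y ^ 16 := Nat.mul_le_mul hY hX
        _ = Y ^ 17 := by ring
    have h7 : 2 ^ (tOf W + 1) = 2 * 2 ^ tOf W := by rw [pow_succ]; ring
    omega

theorem leaves_le (a b δ : ℕ) (hδ : 1 ≤ δ) :
    (a + 1) ^ (b / max 1 (δ / 8)) * (b + 1) ^ (a / max 1 (δ / 8)) ≤
      ((a + b + 2) ^ ((a + b) / δ + 1)) ^ 16 := by
  set τ := max 1 (δ / 8) with hτ
  have hτ1 : 1 ≤ τ := le_max_left _ _
  have h1 : δ ≤ 16 * τ := by omega
  have h2 : b / τ + a / τ ≤ (a + b) / τ := by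
    rw [Nat.le_div_iff_mul_le hτ1, Nat.add_mul]
    have := Nat.div_mul_le_self b τ
    have := Nat.div_mul_le_self a τ
    omega
  have h3 : (a + b) / τ ≤ ((a + b) / δ + 1) * 16 := by
    refine Nat.div_le_of_le_mul ?_
    have h4 : a + b < δ * ((a + b) / δ + 1) := by
      have := Nat.lt_succ_self ((a + b) / δ)
      rw [Nat.mul_comm]
      exact (Nat.div_lt_iff_lt_mul hδ).1 this
    calc a + b ≤ δ * ((a + b) / δ + 1) := h4.le
      _ ≤ 16 * τ * ((a + b) / δ + 1) := Nat.mul_le_mul_right _ h1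
      _ = τ * (((a + b) / δ + 1) * 16) := by ring
  calc (a + 1) ^ (b / τ) * (b + 1) ^ (a / τ)
      ≤ (a + b + 2) ^ (b / τ) * (a + b + 2) ^ (a / τ) :=
        Nat.mul_le_mul (Nat.pow_le_pow_left (by omega) _) (Nat.pow_le_pow_left (by omega) _)
    _ = (a + b + 2) ^ (b / τ + a / τ) := by rw [pow_add]
    _ ≤ (a + b + 2) ^ (((a + b) / δ + 1) * 16) :=
        Nat.pow_le_pow_right (by omega) (h2.trans h3)
    _ = ((a + b + 2) ^ ((a + b) / δ + 1)) ^ 16 := by rw [pow_mul]

/-- The algorithm is correct if the pad is long enough. -/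
theorem alg_correct (G : BGr) (δ s N W : ℕ) (hG : IsBip G) (hδ : 1 ≤ δ) (hN : 1 ≤ N)
    (hs : Spread δ s G)
    (hW : ((nV G + 2) ^ (nV G / δ + 1) * 2 ^ s * N) ^ 136 ≤ W) :
    Approx N (total G.2.2 (max 1 (δ / 8)) (tOf W) W G.1 G.2.1 : ℕ) (numIS G : ℕ) := by
  set Y := (nV G + 2) ^ (nV G / δ + 1) * 2 ^ s * N with hYdef
  set P := (nV G + 2) ^ (nV G / δ + 1) with hP
  have hP2 : 2 ≤ P := by
    calc 2 ≤ nV G + 2 := by omega
      _ = (nV G + 2) ^ 1 := (pow_one _).symm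
      _ ≤ P := Nat.pow_le_pow_right (by omega) (Nat.succ_le_succ (Nat.zero_le _))
  have hS1 : 1 ≤ 2 ^ s := Nat.one_le_two_pow
  have hY2 : 2 ≤ Y := by
    calc 2 = 2 * 1 * 1 := rfl
      _ ≤ P * 2 ^ s * N := Nat.mul_le_mul (Nat.mul_le_mul hP2 hS1) hN
  have hl := leaves_le G.1.length G.2.1.length δ hδ
  have hX : (G.1.length + 1) ^ (G.2.1.length / max 1 (δ / 8)) *
      (G.2.1.length + 1) ^ (G.1.length / max 1 (δ / 8)) * 2 ^ s * N ≤ Y ^ 16 := by
    calc (G.1.length + 1) ^ (G.2.1.length / max 1 (δ / 8)) *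
        (G.2.1.length + 1) ^ (G.1.length / max 1 (δ / 8)) * 2 ^ s * N
        ≤ P ^ 16 * (2 ^ s) ^ 16 * N ^ 16 :=
          Nat.mul_le_mul (Nat.mul_le_mul hl (Nat.le_self_pow (by norm_num) _))
            (Nat.le_self_pow (by norm_num) _)
      _ = Y ^ 16 := by rw [hYdef, mul_pow, mul_pow]
  obtain ⟨h1, h2⟩ := tOf_spec hY2 hX hW
  refine total_approx G.2.2 δ s (tOf W) W G.1 G.2.1 hG.1 hG.2.1 hδ hs ?_ h1 N hN h2
  have h3 : (G.1.length + 1) ^ (G.2.1.length / max 1 (δ / 8)) *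
      (G.2.1.length + 1) ^ (G.1.length / max 1 (δ / 8)) ≤ Y ^ 16 := by
    refine le_trans ?_ hX
    rw [Nat.mul_assoc _ (2 ^ s) N]
    exact Nat.le_mul_of_pos_right _ (Nat.mul_pos hS1 hN)
  exact h3.trans ((Nat.pow_le_pow_right (by omega) (by norm_num)).trans hW)

/-- Between a set `A` of left vertices and a set `B` of right vertices there are at least
`(n / k) (|A| + |B| - |R| - C log₂ n)` edges, for all `A` and `B`, where `R` is the right part
and `n` the number of all vertices. -/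
def Robust (k C : ℕ) (G : BGr) : Prop :=
  ∀ A ⊆ G.1.toFinset, ∀ B ⊆ G.2.1.toFinset,
    nV G * (A.card + B.card) ≤ k * eBetween G.2.2 A B +
      nV G * (G.2.1.length + C * Nat.log 2 (nV G))

/-- All left vertices have degree at least `n / k` and at least `D - C log₂ n`, where `D` is an upper
bound for the degrees of the right vertices. -/
def NearRegular (k C : ℕ) (G : BGr) : Prop :=
  ∃ D : ℕ, (∀ u ∈ G.1, nV G ≤ k * degL G u ∧ D ≤ degL G u + C * Nat.log 2 (nV G)) ∧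
    ∀ v ∈ G.2.1, degR G v ≤ D

/-- The two parts have the same number `m` of vertices, and every vertex has degree at least
`(m - C log₂ n) / 2`. -/
def NearHalf (C : ℕ) (G : BGr) : Prop :=
  G.1.length = G.2.1.length ∧
    (∀ u ∈ G.1, G.1.length ≤ 2 * degL G u + C * Nat.log 2 (nV G)) ∧
    ∀ v ∈ G.2.1, G.1.length ≤ 2 * degR G v + C * Nat.log 2 (nV G)

theorem card_add_card_le {G : BGr} {A B : Finset ℕ} (hA : A ⊆ G.1.toFinset)
    (hB : B ⊆ G.2.1.toFinset) : A.card + B.card ≤ nV G :=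
  Nat.add_le_add ((Finset.card_le_card hA).trans (List.toFinset_card_le _))
    ((Finset.card_le_card hB).trans (List.toFinset_card_le _))

theorem Robust.spread {k C : ℕ} {G : BGr} (hk : 1 ≤ k) (h : Robust k C G) :
    Spread (max 1 (nV G / k)) (C * Nat.log 2 (nV G) + k) G := by
  intro A hA B hB
  have h1 := h A hA B hB
  have h2 := card_add_card_le hA hB
  rcases Nat.lt_or_ge (nV G) k with hn | hn
  · rw [Nat.div_eq_of_lt hn, max_eq_left (Nat.zero_le 1), Nat.one_mul, Nat.one_mul]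
    omega
  · have h3 : 1 ≤ nV G / k := (Nat.one_le_div_iff hk).2 hn
    rw [max_eq_right h3]
    set δ := nV G / k
    set x := A.card + B.card
    set y := G.2.1.length + C * Nat.log 2 (nV G) with hy
    have h4 : δ * k ≤ nV G := Nat.div_mul_le_self _ _
    rcases Nat.le_total x y with hxy | hxy
    · calc δ * x ≤ δ * y := Nat.mul_le_mul_left _ hxy
        _ ≤ eBetween G.2.2 A B + δ * (G.2.1.length + (C * Nat.log 2 (nV G) + k)) := by
          have : δ * y ≤ δ * (G.2.1.length + (C * Nat.log 2 (nV G) + k)) :=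
            Nat.mul_le_mul_left _ (by omega)
          omega
    · obtain ⟨z, hz⟩ : ∃ z, x = y + z := ⟨x - y, by omega⟩
      rw [hz, Nat.mul_add] at h1
      have h5 : nV G * z ≤ k * eBetween G.2.2 A B := by omega
      have h6 : k * (δ * z) ≤ k * eBetween G.2.2 A B := by
        calc k * (δ * z) = (δ * k) * z := by ring
          _ ≤ nV G * z := Nat.mul_le_mul_right _ h4
          _ ≤ _ := h5
      have h7 := Nat.le_of_mul_le_mul_left h6 hk
      have h8 : δ * y ≤ δ * (G.2.1.length + (C * Nat.log 2 (nV G) + k)) :=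
        Nat.mul_le_mul_left _ (by omega)
      rw [hz, Nat.mul_add]
      omega

theorem two_pow_log_le (n : ℕ) : 2 ^ Nat.log 2 n ≤ n + 2 := by
  rcases Nat.eq_zero_or_pos n with h | h
  · subst h; simp
  · exact (Nat.pow_log_le_self 2 h.ne').trans (by omega)

theorem p_nV {α : Type} [TEnc α] {G : α → BGr} (hG : NPC.Poly G) : UPoly (fun a => nV (G a)) :=
  UPoly.add (UPoly.length (Poly.fst hG)) (UPoly.length (Poly.fst (Poly.snd hG)))

theorem u_pow_const {α : Type} [TEnc α] {n : α → ℕ} (hn : UPoly n) (k : ℕ) :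
    UPoly (fun a => (n a) ^ k) := by
  have := UPoly.eval hn (Polynomial.X ^ k)
  simpa using this

/-- The FPTAS for robust graphs. -/
theorem fptas_robust (k C : ℕ) (hk : 1 ≤ k) :
    HasFPTASOn (fun G : BGr => IsBip G ∧ Robust k C G) numIS := by
  set f : BGr × List Bool → ℕ := fun x =>
    ((nV x.1 + 2) ^ (3 * k + C + 1) * x.2.length) ^ 136 with hf
  have hfU : UPoly f := by
    refine u_pow_const (UPoly.mul (u_pow_const (UPoly.add (p_nV (Poly.fst Poly.id))
      (UPoly.const 2)) _) (UPoly.length (Poly.snd Poly.id))) 136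
  have hF : NPC.Poly (fun x : BGr × List Bool => total x.1.2.2 (max 1 ((max 1 (nV x.1 / k)) / 8))
      (tOf (f x)) (f x) x.1.1 x.1.2.1) :=
    p_alg' (Poly.fst Poly.id) (Poly.max (NPC.Poly.const 1)
      (Poly.div (p_nV (Poly.fst Poly.id)).toPoly (NPC.Poly.const k))) hfU
  obtain ⟨A, hA, hA'⟩ := exists_polyTime hF 0
  refine ⟨_, A, hA, hA', ?_⟩
  rintro G ⟨hG, hR⟩ w hw
  have hw1 : 1 ≤ w.length := List.length_pos_iff.2 hw
  refine alg_correct G (max 1 (nV G / k)) (C * Nat.log 2 (nV G) + k) w.length _ hG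
    (le_max_left _ _) hw1 (hR.spread hk) ?_
  refine Nat.pow_le_pow_left (Nat.mul_le_mul_right _ ?_) 136
  have h1 : nV G / max 1 (nV G / k) ≤ 2 * k := by
    refine Nat.div_le_of_le_mul ?_
    rcases Nat.lt_or_ge (nV G) k with hn | hn
    · rw [Nat.div_eq_of_lt hn, max_eq_left (Nat.zero_le 1)]; omega
    · have h3 : 1 ≤ nV G / k := (Nat.one_le_div_iff hk).2 hn
      rw [max_eq_right h3]
      have h4 : nV G < k * (nV G / k + 1) := by
        rw [Nat.mul_comm]
        exact (Nat.div_lt_iff_lt_mul hk).1 (Nat.lt_succ_self _)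
      calc nV G ≤ k * (nV G / k + 1) := h4.le
        _ ≤ k * (nV G / k + nV G / k) := Nat.mul_le_mul_left _ (by omega)
        _ = nV G / k * (2 * k) := by ring
  calc (nV G + 2) ^ (nV G / max 1 (nV G / k) + 1) * 2 ^ (C * Nat.log 2 (nV G) + k)
      ≤ (nV G + 2) ^ (2 * k + 1) * ((nV G + 2) ^ C * (nV G + 2) ^ k) := by
        refine Nat.mul_le_mul (Nat.pow_le_pow_right (by omega) (by omega)) ?_
        rw [pow_add, Nat.mul_comm C, pow_mul]
        exact Nat.mul_le_mul (Nat.pow_le_pow_left (two_pow_log_le _) _)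
          (Nat.pow_le_pow_left (by omega) _)
    _ = (nV G + 2) ^ (3 * k + C + 1) := by
        rw [← pow_add, ← pow_add]; congr 1; ring

theorem HasFPTASOn.mono {α : Type} [TEnc α] {C C' : α → Prop} {f : α → ℕ}
    (h : HasFPTASOn C f) (hC : ∀ a, C' a → C a) : HasFPTASOn C' f := by
  obtain ⟨F, A, h1, h2, h3⟩ := h
  exact ⟨F, A, h1, h2, fun G hG => h3 G (hC G hG)⟩

end Pool.Agent.J4H63.DB
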