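import Pool.Agent.J4H63.DB.Classes

/-!
# The nearly regular, nearly half dense gadget
-/

namespace Pool.Agent.J4H63.DB

open Pool.Agent.NPC Pool.Agent.H49R2.PC

/-- The two parts have the same number `m` of vertices, and every degree `d` satisfies
`|2 d - m| ^ k ≤ m`. -/
def HalfRegular (k : ℕ) (G : BGr) : Prop :=
  G.1.length = G.2.1.length ∧
    (∀ u ∈ G.1, (2 * degL G u - G.1.length) ^ k ≤ G.1.length ∧
      (G.1.length - 2 * degL G u) ^ k ≤ G.1.length) ∧
    ∀ v ∈ G.2.1, (2 * degR G v - G.1.length) ^ k ≤ G.1.length ∧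
      (G.1.length - 2 * degR G v) ^ k ≤ G.1.length

theorem cnt_congr {E E' : List (ℕ × ℕ)} {A B : Finset ℕ}
    (h : ∀ u ∈ A, ∀ v ∈ B, (u, v) ∈ E ↔ (u, v) ∈ E') : cnt E A B = cnt E' A B := by
  unfold cnt
  congr 1
  ext p
  rw [mem_indep, mem_indep]
  constructor
  · rintro ⟨h1, h2, h3⟩
    exact ⟨h1, h2, fun u hu v hv h' => h3 u hu v hv ((h u (h1 hu) v (h2 hv)).2 h')⟩
  · rintro ⟨h1, h2, h3⟩
    exact ⟨h1, h2, fun u hu v hv h' => h3 u hu v hv ((h u (h1 hu) v (h2 hv)).1 h')⟩

/-- Relabelling. -/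
theorem cnt_image (E : List (ℕ × ℕ)) (f : ℕ → ℕ) (hf : Function.Injective f) (A B : Finset ℕ) :
    cnt (E.map (fun e => (f e.1, f e.2))) (A.image f) (B.image f) = cnt E A B := by
  symm
  have hmem : ∀ u v, (f u, f v) ∈ E.map (fun e => (f e.1, f e.2)) ↔ (u, v) ∈ E := by
    intro u v
    simp only [List.mem_map, Prod.mk.injEq, Prod.exists]
    constructor
    · rintro ⟨a, b, h, h1, h2⟩
      rw [hf h1, hf h2] at h; exact h
    · intro h; exact ⟨u, v, h, rfl, rfl⟩
  refine Finset.card_bij (fun p _ => (p.1.image f, p.2.image f)) ?_ ?_ ?_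
  · intro p hp
    rw [mem_indep] at hp ⊢
    refine ⟨Finset.image_subset_image hp.1, Finset.image_subset_image hp.2.1, ?_⟩
    intro u hu v hv
    simp only [Finset.mem_image] at hu hv
    obtain ⟨u, hu, rfl⟩ := hu
    obtain ⟨v, hv, rfl⟩ := hv
    rw [hmem]
    exact hp.2.2 u hu v hv
  · intro p _ q _ h
    simp only [Prod.mk.injEq] at h
    exact Prod.ext (Finset.image_injective hf h.1) (Finset.image_injective hf h.2)
  · intro q hq
    rw [mem_indep] at hq
    obtain ⟨h1, h2, h3⟩ := hq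
    obtain ⟨p1, hp1, hp1'⟩ := Finset.subset_image_iff.1 h1
    obtain ⟨p2, hp2, hp2'⟩ := Finset.subset_image_iff.1 h2
    refine ⟨(p1, p2), ?_, ?_⟩
    · rw [mem_indep]
      refine ⟨hp1, hp2, fun u hu v hv h => ?_⟩
      refine h3 (f u) ?_ (f v) ?_ ((hmem u v).2 h)
      · rw [← hp1']; exact Finset.mem_image_of_mem f hu
      · rw [← hp2']; exact Finset.mem_image_of_mem f hv
    · exact Prod.ext hp1' hp2'

/-- Left vertices without neighbours in `B` are free. -/
theorem cnt_union_free (E : List (ℕ × ℕ)) (A A1 B : Finset ℕ) (hd : Disjoint A A1)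
    (h : ∀ u ∈ A1, ∀ v ∈ B, (u, v) ∉ E) : cnt E (A ∪ A1) B = 2 ^ A1.card * cnt E A B := by
  induction A1 using Finset.induction_on with
  | empty => simp
  | insert u A1 hu ih =>
    rw [Finset.disjoint_insert_right] at hd
    have hu' : u ∉ A ∪ A1 := by
      rw [Finset.mem_union]; tauto
    rw [Finset.union_insert, cnt_insert E B hu', Finset.card_insert_of_notMem hu]
    have h1 : B.filter (fun w => (u, w) ∉ E) = B := by
      rw [Finset.filter_eq_self]
      exact fun v hv => h u (Finset.mem_insert_self _ _) v hv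
    rw [h1, ih hd.2 (fun u hu v hv => h u (Finset.mem_insert_of_mem hu) v hv), pow_succ]
    ring

/-- Left vertices whose neighbours in `B` are all outside of `B1`. -/
theorem cnt_union_join (E : List (ℕ × ℕ)) (A A1 B B1 : Finset ℕ) (hd : Disjoint A A1)
    (hB : B1 ⊆ B) (h0 : ∀ u ∈ A1, ∀ v ∈ B, (u, v) ∉ E ↔ v ∈ B1) :
    cnt E (A ∪ A1) B = cnt E A B + (2 ^ A1.card - 1) * cnt E A B1 := by
  induction A1 using Finset.induction_on with
  | empty => simp
  | insert u A1 hu ih =>
    rw [Finset.disjoint_insert_right] at hd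
    have hu' : u ∉ A ∪ A1 := by
      rw [Finset.mem_union]; tauto
    rw [Finset.union_insert, cnt_insert E B hu', Finset.card_insert_of_notMem hu]
    have h1 : B.filter (fun w => (u, w) ∉ E) = B1 := by
      ext v
      rw [Finset.mem_filter]
      constructor
      · rintro ⟨hv, hv'⟩
        exact (h0 u (Finset.mem_insert_self _ _) v hv).1 hv'
      · intro hv
        exact ⟨hB hv, (h0 u (Finset.mem_insert_self _ _) v (hB hv)).2 hv⟩
    rw [h1, ih hd.2 (fun u hu v hv => h0 u (Finset.mem_insert_of_mem hu) v hv),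
      cnt_union_free E A A1 B1 hd.2 (fun u hu v hv =>
        (h0 u (Finset.mem_insert_of_mem hu) v (hB hv)).2 hv), pow_succ]
    have : 1 ≤ 2 ^ A1.card := Nat.one_le_two_pow
    obtain ⟨r, hr⟩ : ∃ r, 2 ^ A1.card = r + 1 := ⟨2 ^ A1.card - 1, by omega⟩
    rw [hr, show r + 1 - 1 = r by omega, show (r + 1) * 2 - 1 = 2 * r + 1 by omega]
    ring

/-- a block of odd names -/
def odds (i n : ℕ) : List ℕ := (List.range n).map (fun j => 2 * (i + j) + 1)

theorem mem_odds {i n x : ℕ} : x ∈ odds i n ↔ ∃ j < n, x = 2 * (i + j) + 1 := by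
  simp only [odds, List.mem_map, List.mem_range]
  constructor
  · rintro ⟨j, hj, rfl⟩; exact ⟨j, hj, rfl⟩
  · rintro ⟨j, hj, rfl⟩; exact ⟨j, hj, rfl⟩

theorem odds_nodup (i n : ℕ) : (odds i n).Nodup :=
  List.nodup_range.map (fun a b (h : 2 * (i + a) + 1 = 2 * (i + b) + 1) => by omega)

@[simp] theorem odds_length (i n : ℕ) : (odds i n).length = n := by simp [odds]

/-- all pairs -/
def prodL (A B : List ℕ) : List (ℕ × ℕ) := A.flatMap (fun u => B.map (fun v => (u, v)))

theorem mem_prodL {A B : List ℕ} {p : ℕ × ℕ} : p ∈ prodL A B ↔ p.1 ∈ A ∧ p.2 ∈ B := by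
  obtain ⟨u, v⟩ := p
  simp only [prodL, List.mem_flatMap, List.mem_map, Prod.mk.injEq]
  constructor
  · rintro ⟨a, ha, b, hb, rfl, rfl⟩; exact ⟨ha, hb⟩
  · rintro ⟨h1, h2⟩; exact ⟨u, h1, v, h2, rfl, rfl⟩

section

variable (k : ℕ) (G : BGr)

/-- the slack -/
def hh : ℕ := nV G + 2
/-- the number of new vertices on each side -/
def mm : ℕ := hh G ^ k
/-- the number of padded old vertices on each side -/
def MM : ℕ := mm k G + hh G

/-- the padded left part -/
def L0 : List ℕ := G.1.map (2 * ·) ++ odds 0 (MM k G - G.1.length)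
/-- the padded right part -/
def R0 : List ℕ := G.2.1.map (2 * ·) ++ odds 0 (MM k G - G.2.1.length)
/-- the new vertices, on both sides -/
def N1 : List ℕ := odds (MM k G) (mm k G)

/-- the gadget -/
def gad : BGr :=
  (L0 k G ++ N1 k G, R0 k G ++ N1 k G,
    G.2.2.map (fun e => (2 * e.1, 2 * e.2)) ++
      (prodL (N1 k G) (R0 k G) ++ prodL (L0 k G) (N1 k G)))

theorem le_MM : G.1.length ≤ MM k G ∧ G.2.1.length ≤ MM k G := by
  have h : nV G = G.1.length + G.2.1.length := rfl
  unfold MM hh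
  omega

theorem L0_length : (L0 k G).length = MM k G := by
  have := le_MM k G
  simp only [L0, List.length_append, List.length_map, odds_length]
  omega

theorem R0_length : (R0 k G).length = MM k G := by
  have := le_MM k G
  simp only [R0, List.length_append, List.length_map, odds_length]
  omega

theorem N1_length : (N1 k G).length = mm k G := by simp [N1]

theorem mem_L0 {x : ℕ} : x ∈ L0 k G ↔ (∃ u ∈ G.1, x = 2 * u) ∨
    ∃ j < MM k G - G.1.length, x = 2 * j + 1 := by
  simp only [L0, List.mem_append, List.mem_map, mem_odds, zero_add]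
  constructor
  · rintro (⟨u, hu, rfl⟩ | ⟨j, hj, rfl⟩)
    · exact Or.inl ⟨u, hu, rfl⟩
    · exact Or.inr ⟨j, hj, rfl⟩
  · rintro (⟨u, hu, rfl⟩ | ⟨j, hj, rfl⟩)
    · exact Or.inl ⟨u, hu, rfl⟩
    · exact Or.inr ⟨j, hj, rfl⟩

theorem mem_R0 {x : ℕ} : x ∈ R0 k G ↔ (∃ u ∈ G.2.1, x = 2 * u) ∨
    ∃ j < MM k G - G.2.1.length, x = 2 * j + 1 := by
  simp only [R0, List.mem_append, List.mem_map, mem_odds, zero_add]
  constructor
  · rintro (⟨u, hu, rfl⟩ | ⟨j, hj, rfl⟩)
    · exact Or.inl ⟨u, hu, rfl⟩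
    · exact Or.inr ⟨j, hj, rfl⟩
  · rintro (⟨u, hu, rfl⟩ | ⟨j, hj, rfl⟩)
    · exact Or.inl ⟨u, hu, rfl⟩
    · exact Or.inr ⟨j, hj, rfl⟩

theorem not_mem_N1_of_mem_L0 {x : ℕ} (h : x ∈ L0 k G) : x ∉ N1 k G := by
  rw [mem_L0] at h
  rw [N1, mem_odds]
  rintro ⟨j, _, rfl⟩
  rcases h with ⟨u, _, h⟩ | ⟨i, hi, h⟩ <;> omega

theorem not_mem_N1_of_mem_R0 {x : ℕ} (h : x ∈ R0 k G) : x ∉ N1 k G := by
  rw [mem_R0] at h
  rw [N1, mem_odds]
  rintro ⟨j, _, rfl⟩
  rcases h with ⟨u, _, h⟩ | ⟨i, hi, h⟩ <;> omega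

theorem L0_nodup (hG : IsBip G) : (L0 k G).Nodup := by
  refine List.Nodup.append (hG.1.map fun a b (h : 2 * a = 2 * b) => by omega) (odds_nodup _ _) ?_
  intro x h1 h2
  simp only [List.mem_map, mem_odds] at h1 h2
  obtain ⟨u, _, rfl⟩ := h1
  obtain ⟨j, _, h⟩ := h2
  omega

theorem R0_nodup (hG : IsBip G) : (R0 k G).Nodup := by
  refine List.Nodup.append (hG.2.1.map fun a b (h : 2 * a = 2 * b) => by omega) (odds_nodup _ _) ?_
  intro x h1 h2
  simp only [List.mem_map, mem_odds] at h1 h2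
  obtain ⟨u, _, rfl⟩ := h1
  obtain ⟨j, _, h⟩ := h2
  omega

theorem mem_gadE {u v : ℕ} : (u, v) ∈ (gad k G).2.2 ↔
    (∃ e ∈ G.2.2, u = 2 * e.1 ∧ v = 2 * e.2) ∨ (u ∈ N1 k G ∧ v ∈ R0 k G) ∨
      (u ∈ L0 k G ∧ v ∈ N1 k G) := by
  simp only [gad, List.mem_append, mem_prodL, List.mem_map, Prod.mk.injEq]
  constructor
  · rintro (⟨e, he, rfl, rfl⟩ | h | h)
    · exact Or.inl ⟨e, he, rfl, rfl⟩
    · exact Or.inr (Or.inl h)
    · exact Or.inr (Or.inr h)
  · rintro (⟨e, he, rfl, rfl⟩ | h | h)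
    · exact Or.inl ⟨e, he, rfl, rfl⟩
    · exact Or.inr (Or.inl h)
    · exact Or.inr (Or.inr h)

theorem gad_isBip (hG : IsBip G) : IsBip (gad k G) := by
  refine ⟨?_, ?_, ?_⟩
  · exact (L0_nodup k G hG).append (odds_nodup _ _) fun x h1 h2 => not_mem_N1_of_mem_L0 k G h1 h2
  · exact (R0_nodup k G hG).append (odds_nodup _ _) fun x h1 h2 => not_mem_N1_of_mem_R0 k G h1 h2
  · rintro ⟨u, v⟩ he
    rw [mem_gadE] at he
    simp only [gad, List.mem_append]
    rcases he with ⟨e, he, rfl, rfl⟩ | h | h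
    · have := hG.2.2 e he
      exact ⟨Or.inl ((mem_L0 k G).2 (Or.inl ⟨_, this.1, rfl⟩)),
        Or.inl ((mem_R0 k G).2 (Or.inl ⟨_, this.2, rfl⟩))⟩
    · exact ⟨Or.inr h.1, Or.inl h.2⟩
    · exact ⟨Or.inl h.1, Or.inr h.2⟩

/-- Inside the padded old parts only the old edges are left. -/
theorem cnt_old (hG : IsBip G) : cnt (gad k G).2.2 (L0 k G).toFinset (R0 k G).toFinset =
    2 ^ ((MM k G - G.1.length) + (MM k G - G.2.1.length)) * numIS G := by
  have hL : (L0 k G).toFinset = (G.1.toFinset.image (2 * ·)) ∪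
      (odds 0 (MM k G - G.1.length)).toFinset := by
    rw [L0, List.toFinset_append]
    congr 1
    ext x; simp
  have hR : (R0 k G).toFinset = (G.2.1.toFinset.image (2 * ·)) ∪
      (odds 0 (MM k G - G.2.1.length)).toFinset := by
    rw [R0, List.toFinset_append]
    congr 1
    ext x; simp
  have hno1 : ∀ x ∈ G.1.toFinset.image (2 * ·), ∀ y ∈ odds 0 (MM k G - G.1.length), x ≠ y := by
    intro x hx y hy
    simp only [Finset.mem_image, mem_odds] at hx hy
    obtain ⟨u, _, rfl⟩ := hx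
    obtain ⟨j, _, rfl⟩ := hy
    omega
  have hno2 : ∀ x ∈ G.2.1.toFinset.image (2 * ·), ∀ y ∈ odds 0 (MM k G - G.2.1.length), x ≠ y := by
    intro x hx y hy
    simp only [Finset.mem_image, mem_odds] at hx hy
    obtain ⟨u, _, rfl⟩ := hx
    obtain ⟨j, _, rfl⟩ := hy
    omega
  rw [cnt_congr (E' := G.2.2.map (fun e => (2 * e.1, 2 * e.2)))]
  · rw [hL, cnt_union_free, ← cnt_sw, hR, cnt_union_free, cnt_sw, cnt_image]
    · rw [List.toFinset_card_of_nodup (odds_nodup _ _), List.toFinset_card_of_nodup (odds_nodup _ _),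
        odds_length, odds_length, pow_add, Nat.mul_assoc]
      rfl
    · intro a b h
      have h' : 2 * a = 2 * b := h
      omega
    · rw [Finset.disjoint_left]
      intro x h1 h2
      exact hno2 x h1 x (List.mem_toFinset.1 h2) rfl
    · intro u hu v hv h
      rw [mem_sw, List.mem_map] at h
      obtain ⟨e, _, he⟩ := h
      rw [List.mem_toFinset, mem_odds] at hu
      obtain ⟨j, _, rfl⟩ := hu
      simp only [Prod.mk.injEq] at he
      omega
    · rw [Finset.disjoint_left]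
      intro x h1 h2
      exact hno1 x h1 x (List.mem_toFinset.1 h2) rfl
    · intro u hu v hv h
      rw [List.mem_map] at h
      obtain ⟨e, _, he⟩ := h
      rw [List.mem_toFinset, mem_odds] at hu
      obtain ⟨j, _, rfl⟩ := hu
      simp only [Prod.mk.injEq] at he
      omega
  · intro u hu v hv
    rw [List.mem_toFinset] at hu hv
    rw [mem_gadE, List.mem_map]
    constructor
    · rintro (⟨e, he, rfl, rfl⟩ | h | h)
      · exact ⟨e, he, rfl⟩
      · exact absurd h.1 (not_mem_N1_of_mem_L0 k G hu)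
      · exact absurd h.2 (not_mem_N1_of_mem_R0 k G hv)
    · rintro ⟨e, he, h⟩
      simp only [Prod.mk.injEq] at h
      exact Or.inl ⟨e, he, h.1.symm, h.2.symm⟩

/-- the number of the additional independent sets -/
def extra (k : ℕ) (G : BGr) : ℕ :=
  (2 ^ mm k G - 1) * 2 ^ MM k G + (2 ^ mm k G - 1) * (2 ^ MM k G + (2 ^ mm k G - 1))

/-- The number of independent sets of the gadget. -/
theorem numIS_gad (hG : IsBip G) : numIS (gad k G) =
    2 ^ ((MM k G - G.1.length) + (MM k G - G.2.1.length)) * numIS G + extra k G := by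
  have hL1 : (gad k G).1.toFinset = (L0 k G).toFinset ∪ (N1 k G).toFinset := by
    rw [← List.toFinset_append]; rfl
  have hR1 : (gad k G).2.1.toFinset = (R0 k G).toFinset ∪ (N1 k G).toFinset := by
    rw [← List.toFinset_append]; rfl
  have d1 : Disjoint (L0 k G).toFinset (N1 k G).toFinset := by
    rw [Finset.disjoint_left]
    intro x h1 h2
    rw [List.mem_toFinset] at h1 h2
    exact not_mem_N1_of_mem_L0 k G h1 h2
  have d2 : Disjoint (R0 k G).toFinset (N1 k G).toFinset := by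
    rw [Finset.disjoint_left]
    intro x h1 h2
    rw [List.mem_toFinset] at h1 h2
    exact not_mem_N1_of_mem_R0 k G h1 h2
  have c1 : (N1 k G).toFinset.card = mm k G := by
    have h : (N1 k G).Nodup := odds_nodup _ _
    rw [List.toFinset_card_of_nodup h, N1_length]
  have c2 : (L0 k G).toFinset.card = MM k G := by
    rw [List.toFinset_card_of_nodup (L0_nodup k G hG), L0_length]
  have c3 : (R0 k G).toFinset.card = MM k G := by
    rw [List.toFinset_card_of_nodup (R0_nodup k G hG), R0_length]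
  have odd_of_N1 : ∀ x ∈ N1 k G, ∀ y, x ≠ 2 * y := by
    intro x hx y
    rw [N1, mem_odds] at hx
    obtain ⟨j, _, rfl⟩ := hx
    omega
  change cnt (gad k G).2.2 (gad k G).1.toFinset (gad k G).2.1.toFinset = _
  rw [hL1, hR1]
  -- the new left vertices
  rw [cnt_union_join _ _ _ _ (N1 k G).toFinset d1 Finset.subset_union_right]
  · -- the new right vertices
    rw [← cnt_sw _ (L0 k G).toFinset ((R0 k G).toFinset ∪ (N1 k G).toFinset),
      cnt_union_join (sw (gad k G).2.2) _ _ _ ∅ d2 (Finset.empty_subset _)]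
    · rw [cnt_sw, cnt_sw, cnt_old k G hG, c1]
      have e1 : cnt (gad k G).2.2 ∅ (R0 k G).toFinset = 2 ^ MM k G := by
        rw [cnt_of_no_edge _ _ _ (by simp), c3]; simp
      have e2 : cnt (gad k G).2.2 (L0 k G).toFinset (N1 k G).toFinset =
          2 ^ MM k G + (2 ^ mm k G - 1) := by
        rw [← cnt_sw, ← Finset.empty_union (N1 k G).toFinset,
          cnt_union_join (sw (gad k G).2.2) ∅ _ _ ∅ (by simp) (Finset.empty_subset _), c1]
        · rw [cnt_of_no_edge _ _ _ (by simp), cnt_of_no_edge _ _ _ (by simp), c2]; simp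
        · intro u hu v hv
          rw [List.mem_toFinset] at hu hv
          simp only [Finset.notMem_empty, iff_false, not_not]
          rw [mem_sw, mem_gadE]
          exact Or.inr (Or.inr ⟨hv, hu⟩)
      rw [e1, e2, extra]
      ring
    · intro u hu v hv
      rw [List.mem_toFinset] at hu hv
      simp only [Finset.notMem_empty, iff_false, not_not]
      rw [mem_sw, mem_gadE]
      exact Or.inr (Or.inr ⟨hv, hu⟩)
  · intro u hu v hv
    rw [Finset.mem_union, List.mem_toFinset, List.mem_toFinset] at hv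
    rw [List.mem_toFinset] at hu ⊢
    rw [mem_gadE]
    constructor
    · intro h
      rcases hv with hv | hv
      · exact absurd (Or.inr (Or.inl ⟨hu, hv⟩)) h
      · exact hv
    · rintro hv' (⟨e, _, he, _⟩ | ⟨_, h⟩ | ⟨h, _⟩)
      · exact odd_of_N1 u hu _ he
      · exact not_mem_N1_of_mem_R0 k G h hv'
      · exact not_mem_N1_of_mem_L0 k G h hu

end

end Pool.Agent.J4H63.DB
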