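import Pool.Agent.J4H63.DB.Phase

/-!
# Sparse pieces: a maximal matching, the exact count, and the bound for many disjoint edges
-/

namespace Pool.Agent.J4H63.DB

/-- the edges between two lists of vertices -/
def edgesIn (E : List (ℕ × ℕ)) (Q B : List ℕ) : List (ℕ × ℕ) :=
  E.filter (fun e => decide (e.1 ∈ Q) && decide (e.2 ∈ B))

/-- one step of the greedy matching -/
def gmStep (M : List (ℕ × ℕ)) (e : ℕ × ℕ) : List (ℕ × ℕ) :=
  if e.1 ∈ M.map Prod.fst ∨ e.2 ∈ M.map Prod.snd then M else e :: M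

/-- the greedy matching -/
def gm (H : List (ℕ × ℕ)) : List (ℕ × ℕ) := H.foldl gmStep []

theorem gm_aux (H : List (ℕ × ℕ)) : ∀ M : List (ℕ × ℕ), (M.map Prod.fst).Nodup →
    (M.map Prod.snd).Nodup →
    ((H.foldl gmStep M).map Prod.fst).Nodup ∧ ((H.foldl gmStep M).map Prod.snd).Nodup ∧
    (∀ e ∈ H.foldl gmStep M, e ∈ M ∨ e ∈ H) ∧ (∀ e ∈ M, e ∈ H.foldl gmStep M) ∧
    ∀ e ∈ H, e.1 ∈ (H.foldl gmStep M).map Prod.fst ∨ e.2 ∈ (H.foldl gmStep M).map Prod.snd := by
  induction H with
  | nil => intro M h1 h2; simp [h1, h2]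
  | cons e H ih =>
    intro M h1 h2
    rw [List.foldl_cons]
    have h3 : ((gmStep M e).map Prod.fst).Nodup ∧ ((gmStep M e).map Prod.snd).Nodup ∧
        (∀ f ∈ gmStep M e, f ∈ M ∨ f = e) ∧ (∀ f ∈ M, f ∈ gmStep M e) ∧
        (e.1 ∈ (gmStep M e).map Prod.fst ∨ e.2 ∈ (gmStep M e).map Prod.snd) := by
      unfold gmStep
      split_ifs with h
      · exact ⟨h1, h2, fun f hf => Or.inl hf, fun f hf => hf, h⟩
      · rw [not_or] at h
        refine ⟨?_, ?_, ?_, ?_, ?_⟩
        · rw [List.map_cons, List.nodup_cons]; exact ⟨h.1, h1⟩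
        · rw [List.map_cons, List.nodup_cons]; exact ⟨h.2, h2⟩
        · intro f hf
          rw [List.mem_cons] at hf
          tauto
        · intro f hf; exact List.mem_cons_of_mem _ hf
        · left; simp
    obtain ⟨a1, a2, a3, a4, a5⟩ := h3
    obtain ⟨b1, b2, b3, b4, b5⟩ := ih _ a1 a2
    refine ⟨b1, b2, ?_, fun f hf => b4 f (a4 f hf), ?_⟩
    · intro f hf
      rcases b3 f hf with h | h
      · rcases a3 f h with h' | h'
        · exact Or.inl h'
        · right; rw [h']; simp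
      · right; exact List.mem_cons_of_mem _ h
    · intro f hf
      rw [List.mem_cons] at hf
      rcases hf with rfl | hf
      · rcases a5 with h | h
        · left
          rw [List.mem_map] at h ⊢
          obtain ⟨g, hg, hg'⟩ := h
          exact ⟨g, b4 g hg, hg'⟩
        · right
          rw [List.mem_map] at h ⊢
          obtain ⟨g, hg, hg'⟩ := h
          exact ⟨g, b4 g hg, hg'⟩
      · exact b5 f hf

theorem gm_nodup_fst (H : List (ℕ × ℕ)) : ((gm H).map Prod.fst).Nodup :=
  (gm_aux H [] (by simp) (by simp)).1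

theorem gm_nodup_snd (H : List (ℕ × ℕ)) : ((gm H).map Prod.snd).Nodup :=
  (gm_aux H [] (by simp) (by simp)).2.1

theorem gm_subset (H : List (ℕ × ℕ)) : ∀ e ∈ gm H, e ∈ H := fun e he => by
  have := (gm_aux H [] (by simp) (by simp)).2.2.1 e he
  simpa using this

theorem gm_maximal (H : List (ℕ × ℕ)) :
    ∀ e ∈ H, e.1 ∈ (gm H).map Prod.fst ∨ e.2 ∈ (gm H).map Prod.snd :=
  (gm_aux H [] (by simp) (by simp)).2.2.2.2

theorem mem_edgesIn {E : List (ℕ × ℕ)} {Q B : List ℕ} {e : ℕ × ℕ} :
    e ∈ edgesIn E Q B ↔ e ∈ E ∧ e.1 ∈ Q ∧ e.2 ∈ B := by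
  simp [edgesIn, List.mem_filter]

/-- In a piece with small degrees, the number of edges is bounded by the size of the matching. -/
theorem eBetween_le (E : List (ℕ × ℕ)) (τ : ℕ) (Q B : List ℕ)
    (h1 : ∀ v ∈ Q, (nbrs E v B).length < τ) (h2 : ∀ w ∈ B, (nbrs (sw E) w Q).length < τ) :
    eBetween E Q.toFinset B.toFinset ≤ 2 * (gm (edgesIn E Q B)).length * (τ - 1) := by
  set M := gm (edgesIn E Q B) with hM
  have hsub : (Q.toFinset ×ˢ B.toFinset).filter (fun p => p ∈ E) ⊆
      ((M.map Prod.fst).toFinset.biUnion fun u => (nbrs E u B).toFinset.image fun w => (u, w)) ∪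
      ((M.map Prod.snd).toFinset.biUnion fun w =>
        (nbrs (sw E) w Q).toFinset.image fun u => (u, w)) := by
    rintro ⟨u, w⟩ hp
    rw [Finset.mem_filter, Finset.mem_product, List.mem_toFinset, List.mem_toFinset] at hp
    obtain ⟨⟨hu, hw⟩, he⟩ := hp
    simp only at hu hw
    rw [Finset.mem_union, Finset.mem_biUnion, Finset.mem_biUnion]
    rcases gm_maximal (edgesIn E Q B) (u, w) (mem_edgesIn.2 ⟨he, hu, hw⟩) with h | h
    · left
      refine ⟨u, List.mem_toFinset.2 h, ?_⟩
      rw [Finset.mem_image]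
      refine ⟨w, ?_, rfl⟩
      rw [List.mem_toFinset, nbrs, List.mem_filter]
      exact ⟨hw, by simpa using he⟩
    · right
      refine ⟨w, List.mem_toFinset.2 h, ?_⟩
      rw [Finset.mem_image]
      refine ⟨u, ?_, rfl⟩
      rw [List.mem_toFinset, nbrs, List.mem_filter]
      exact ⟨hu, by simpa [mem_sw] using he⟩
  have hML : ∀ v ∈ (M.map Prod.fst).toFinset, v ∈ Q := by
    intro v hv
    rw [List.mem_toFinset, List.mem_map] at hv
    obtain ⟨e, he, rfl⟩ := hv
    exact (mem_edgesIn.1 (gm_subset _ e he)).2.1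
  have hMR : ∀ w ∈ (M.map Prod.snd).toFinset, w ∈ B := by
    intro v hv
    rw [List.mem_toFinset, List.mem_map] at hv
    obtain ⟨e, he, rfl⟩ := hv
    exact (mem_edgesIn.1 (gm_subset _ e he)).2.2
  have c1 : ((M.map Prod.fst).toFinset.biUnion fun u =>
      (nbrs E u B).toFinset.image fun w => (u, w)).card ≤ M.length * (τ - 1) := by
    refine Finset.card_biUnion_le.trans ((Finset.sum_le_card_nsmul _ _ (τ - 1) ?_).trans ?_)
    · intro u hu
      refine Finset.card_image_le.trans ((List.toFinset_card_le _).trans ?_)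
      have := h1 u (hML u hu)
      omega
    · rw [smul_eq_mul]
      refine Nat.mul_le_mul_right _ ((List.toFinset_card_le _).trans ?_)
      rw [List.length_map]
  have c2 : ((M.map Prod.snd).toFinset.biUnion fun w =>
      (nbrs (sw E) w Q).toFinset.image fun u => (u, w)).card ≤ M.length * (τ - 1) := by
    refine Finset.card_biUnion_le.trans ((Finset.sum_le_card_nsmul _ _ (τ - 1) ?_).trans ?_)
    · intro u hu
      refine Finset.card_image_le.trans ((List.toFinset_card_le _).trans ?_)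
      have := h2 u (hMR u hu)
      omega
    · rw [smul_eq_mul]
      refine Nat.mul_le_mul_right _ ((List.toFinset_card_le _).trans ?_)
      rw [List.length_map]
  have c3 := (Finset.card_le_card hsub).trans (Finset.card_union_le _ _)
  change ((Q.toFinset ×ˢ B.toFinset).filter (fun p => p ∈ E)).card ≤ _
  have c4 : 2 * M.length * (τ - 1) = M.length * (τ - 1) + M.length * (τ - 1) := by ring
  omega

/-- A piece with many disjoint edges contains few independent sets. -/
theorem cnt_le_of_matching (E : List (ℕ × ℕ)) (δ b s t : ℕ) (Q B : List ℕ) (hQ : Q.Nodup)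
    (hB : B.Nodup) (hδ : 1 ≤ δ)
    (h1 : ∀ v ∈ Q, (nbrs E v B).length < max 1 (δ / 8))
    (h2 : ∀ w ∈ B, (nbrs (sw E) w Q).length < max 1 (δ / 8))
    (hsp : δ * (Q.length + B.length) ≤ eBetween E Q.toFinset B.toFinset + δ * (b + s))
    (ht : 8 * t ≤ (gm (edgesIn E Q B)).length) :
    2 ^ t * cnt E Q.toFinset B.toFinset ≤ 2 ^ (b + s) := by
  set M := gm (edgesIn E Q B) with hM
  have e1 := eBetween_le E _ Q B h1 h2
  rw [← hM] at e1
  have e2 : 8 * (max 1 (δ / 8) - 1) ≤ δ := by omega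
  have e3 : 4 * eBetween E Q.toFinset B.toFinset ≤ M.length * δ := by
    calc 4 * eBetween E Q.toFinset B.toFinset
        ≤ 4 * (2 * M.length * (max 1 (δ / 8) - 1)) := Nat.mul_le_mul_left _ e1
      _ = M.length * (8 * (max 1 (δ / 8) - 1)) := by ring
      _ ≤ M.length * δ := Nat.mul_le_mul_left _ e2
  have e4 : 4 * (Q.length + B.length) ≤ M.length + 4 * (b + s) := by
    have h : δ * (4 * (Q.length + B.length)) ≤ δ * (M.length + 4 * (b + s)) := by
      calc δ * (4 * (Q.length + B.length)) = 4 * (δ * (Q.length + B.length)) := by ring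
        _ ≤ 4 * (eBetween E Q.toFinset B.toFinset + δ * (b + s)) := Nat.mul_le_mul_left _ hsp
        _ = 4 * eBetween E Q.toFinset B.toFinset + 4 * (δ * (b + s)) := by ring
        _ ≤ M.length * δ + 4 * (δ * (b + s)) := by omega
        _ = δ * (M.length + 4 * (b + s)) := by ring
    exact Nat.le_of_mul_le_mul_left h hδ
  have e5 := cnt_matching_le E Q.toFinset B.toFinset M (fun e he => by
    obtain ⟨a, c, d⟩ := mem_edgesIn.1 (gm_subset _ e he)
    exact ⟨a, List.mem_toFinset.2 c, List.mem_toFinset.2 d⟩) (gm_nodup_fst _) (gm_nodup_snd _)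
  rw [List.toFinset_card_of_nodup hQ, List.toFinset_card_of_nodup hB] at e5
  set m := M.length
  set c := cnt E Q.toFinset B.toFinset
  have e6 : 256 ^ m * c ^ 4 ≤ 162 ^ m * 2 ^ (4 * (b + s)) := by
    calc 256 ^ m * c ^ 4 = (4 ^ m * c) ^ 4 := by
          rw [mul_pow, ← pow_mul, Nat.mul_comm m 4, pow_mul]; norm_num
      _ ≤ (3 ^ m * 2 ^ (Q.length + B.length)) ^ 4 := Nat.pow_le_pow_left e5 4
      _ = 81 ^ m * 2 ^ (4 * (Q.length + B.length)) := by
          rw [mul_pow, ← pow_mul, ← pow_mul, Nat.mul_comm m 4, pow_mul,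
            Nat.mul_comm (Q.length + B.length) 4]; norm_num
      _ ≤ 81 ^ m * 2 ^ (m + 4 * (b + s)) :=
          Nat.mul_le_mul_left _ (Nat.pow_le_pow_right (by norm_num) e4)
      _ = 162 ^ m * 2 ^ (4 * (b + s)) := by
          rw [pow_add, ← mul_assoc, ← mul_pow]; norm_num
  have e7 : 2 ^ (4 * t) * 162 ^ m ≤ 256 ^ m := by
    obtain ⟨r, hr⟩ : ∃ r, m = 8 * t + r := ⟨m - 8 * t, by omega⟩
    rw [hr, pow_add, pow_add]
    calc 2 ^ (4 * t) * (162 ^ (8 * t) * 162 ^ r) = (2 * 162 ^ 2) ^ (4 * t) * 162 ^ r := by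
          rw [mul_pow, ← pow_mul, show 2 * (4 * t) = 8 * t by ring]; ring
      _ ≤ (256 ^ 2) ^ (4 * t) * 256 ^ r :=
          Nat.mul_le_mul (Nat.pow_le_pow_left (by norm_num) _)
            (Nat.pow_le_pow_left (by norm_num) _)
      _ = 256 ^ (8 * t) * 256 ^ r := by rw [← pow_mul, show 2 * (4 * t) = 8 * t by ring]
  have e8 : 256 ^ m * (2 ^ t * c) ^ 4 ≤ 256 ^ m * (2 ^ (b + s)) ^ 4 := by
    calc 256 ^ m * (2 ^ t * c) ^ 4 = 2 ^ (4 * t) * (256 ^ m * c ^ 4) := by
          rw [mul_pow, ← pow_mul, Nat.mul_comm t 4]; ring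
      _ ≤ 2 ^ (4 * t) * (162 ^ m * 2 ^ (4 * (b + s))) := Nat.mul_le_mul_left _ e6
      _ = 2 ^ (4 * t) * 162 ^ m * 2 ^ (4 * (b + s)) := by ring
      _ ≤ 256 ^ m * 2 ^ (4 * (b + s)) := Nat.mul_le_mul_right _ e7
      _ = 256 ^ m * (2 ^ (b + s)) ^ 4 := by rw [← pow_mul (2 : ℕ), Nat.mul_comm (b + s) 4]
  have e9 : (2 ^ t * c) ^ 4 ≤ (2 ^ (b + s)) ^ 4 :=
    Nat.le_of_mul_le_mul_left e8 (by positivity)
  exact (Nat.pow_le_pow_iff_left (by norm_num)).1 e9

/-- the elements of `Q` outside of `C` -/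
def out (C Q : List ℕ) : List ℕ := Q.filter (fun x => !decide (x ∈ C))

/-- the elements of `Q` in `C` -/
def inn (C Q : List ℕ) : List ℕ := Q.filter (fun x => decide (x ∈ C))

/-- the inner sum of the exact count -/
def inner (E : List (ℕ × ℕ)) (W : ℕ) (CR rL B : List ℕ) : ℕ :=
  ((phase (sw E) 0 W (inn CR B) rL).map (fun s => 2 ^ (s.2.length + (out CR B).length))).sum

/-- the exact count of a piece with the maximal matching `M` -/
def leafEx (E : List (ℕ × ℕ)) (W : ℕ) (Q B : List ℕ) (M : List (ℕ × ℕ)) : ℕ :=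
  ((phase E 0 W (M.map Prod.fst) B).map
    (fun s => inner E W (M.map Prod.snd) (out (M.map Prod.fst) Q) s.2)).sum

theorem inn_out (C Q : List ℕ) : (out C Q).toFinset ∪ (inn C Q).toFinset = Q.toFinset := by
  ext x
  simp only [out, inn, Finset.mem_union, List.mem_toFinset, List.mem_filter, Bool.not_eq_true',
    decide_eq_false_iff_not, decide_eq_true_eq]
  tauto

theorem inner_eq (E : List (ℕ × ℕ)) (W : ℕ) (CR rL B : List ℕ) (hB : B.Nodup) (hrL : rL.Nodup)
    (hW : 2 ^ CR.length ≤ W) (hno : ∀ v ∈ rL, ∀ w ∈ out CR B, (v, w) ∉ E) :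
    inner E W CR rL B = cnt E rL.toFinset B.toFinset := by
  have h1 : (inn CR B).Nodup := hB.filter _
  have h2 : pot 0 (inn CR B).length (([], rL) : List ℕ × List ℕ) ≤ W := by
    simp only [pot, if_true]
    refine (Nat.pow_le_pow_right (by norm_num) ?_).trans hW
    have h3 : (inn CR B).toFinset ⊆ CR.toFinset := by
      intro x hx
      simp only [inn, List.mem_toFinset, List.mem_filter, decide_eq_true_eq] at hx
      exact List.mem_toFinset.2 hx.2
    have h4 := Finset.card_le_card h3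
    rw [List.toFinset_card_of_nodup h1] at h4
    exact h4.trans (List.toFinset_card_le _)
  have h5 := phase_sum (sw E) 0 W (out CR B).toFinset (inn CR B) rL h2 h1 (by
    intro x hx
    simp only [inn, out, List.mem_toFinset, List.mem_filter, decide_eq_true_eq,
      Bool.not_eq_true', decide_eq_false_iff_not] at hx ⊢
    tauto)
  rw [inn_out, cnt_sw] at h5
  rw [← h5, inner]
  congr 1
  refine List.map_congr_left fun s hs => ?_
  have g := phase_good hs
  rw [phase_zero hs]
  have g2 : ∀ x ∈ s.2, x ∈ rL := fun x hx => g.2.1.subset hx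
  rw [List.toFinset_nil, Finset.union_empty, cnt_of_no_edge]
  · have h6 : (out CR B).Nodup := hB.filter _
    rw [List.toFinset_card_of_nodup h6, List.toFinset_card_of_nodup (hrL.sublist g.2.1),
      Nat.add_comm]
  · intro u hu v hv h
    rw [List.mem_toFinset] at hu hv
    exact hno v (g2 v hv) u hu (mem_sw.1 h)

theorem leafEx_eq (E : List (ℕ × ℕ)) (W : ℕ) (Q B : List ℕ) (hQ : Q.Nodup) (hB : B.Nodup)
    (hW : 2 ^ (gm (edgesIn E Q B)).length ≤ W) :
    leafEx E W Q B (gm (edgesIn E Q B)) = cnt E Q.toFinset B.toFinset := by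
  set M := gm (edgesIn E Q B) with hM
  have hin : inn (M.map Prod.fst) Q ⊆ M.map Prod.fst := by
    intro x hx
    simp only [inn, List.mem_filter, decide_eq_true_eq] at hx
    exact hx.2
  have hML : ∀ v ∈ M.map Prod.fst, v ∈ Q := by
    intro v hv
    rw [List.mem_map] at hv
    obtain ⟨e, he, rfl⟩ := hv
    exact (mem_edgesIn.1 (gm_subset _ e he)).2.1
  have h1 : (out (M.map Prod.fst) Q).toFinset ∪ (M.map Prod.fst).toFinset = Q.toFinset := by
    ext x
    simp only [out, Finset.mem_union, List.mem_toFinset, List.mem_filter, Bool.not_eq_true',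
      decide_eq_false_iff_not]
    constructor
    · rintro (h | h)
      · exact h.1
      · exact hML x h
    · intro h
      by_cases h' : x ∈ M.map Prod.fst
      · right; exact h'
      · left; exact ⟨h, h'⟩
  have h2 := phase_sum E 0 W (out (M.map Prod.fst) Q).toFinset (M.map Prod.fst) B
    (by simpa [pot] using hW) (gm_nodup_fst _) (by
      intro x hx
      simp only [out, List.mem_toFinset, List.mem_filter, Bool.not_eq_true',
        decide_eq_false_iff_not]
      tauto)
  rw [h1] at h2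
  rw [← h2, leafEx]
  congr 1
  refine List.map_congr_left fun s hs => ?_
  have g := phase_good hs
  rw [phase_zero hs, List.toFinset_nil, Finset.union_empty]
  refine inner_eq E W _ _ _ (hB.sublist g.2.1) (hQ.filter _) (by simpa using hW) ?_
  intro v hv w hw h
  simp only [out, List.mem_filter, Bool.not_eq_true', decide_eq_false_iff_not] at hv hw
  rcases gm_maximal (edgesIn E Q B) (v, w)
    (mem_edgesIn.2 ⟨h, hv.1, g.2.1.subset hw.1⟩) with h' | h'
  · exact hv.2 h'
  · exact hw.2 h'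

end Pool.Agent.J4H63.DB
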