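import Pool.Agent.J4H63.DB.Count

/-!
# The branching procedure

`phase E τ W todo B` branches on the vertices of the list `todo` one after the other: a vertex with
at least `τ` neighbours in the current set of the other side is either not taken, or taken, and then
its neighbours are removed.  The vertices with fewer neighbours are kept for later.
-/

namespace Pool.Agent.J4H63.DB

/-- the neighbours of `v` in `B` -/
def nbrs (E : List (ℕ × ℕ)) (v : ℕ) (B : List ℕ) : List ℕ := B.filter (fun w => decide ((v, w) ∈ E))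

/-- the other elements of `B` -/
def nonnbrs (E : List (ℕ × ℕ)) (v : ℕ) (B : List ℕ) : List ℕ :=
  B.filter (fun w => !decide ((v, w) ∈ E))

/-- the branching on one vertex -/
def br (E : List (ℕ × ℕ)) (τ v : ℕ) (s : List ℕ × List ℕ) : List (List ℕ × List ℕ) :=
  if τ ≤ (nbrs E v s.2).length then [s, (s.1, nonnbrs E v s.2)] else [(v :: s.1, s.2)]

/-- one step: branch in all the states, and keep at most `W` states -/
def stp (E : List (ℕ × ℕ)) (τ W : ℕ) (st : List (List ℕ × List ℕ)) (v : ℕ) :
    List (List ℕ × List ℕ) := (st.flatMap (br E τ v)).take W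

/-- the branching procedure -/
def phase (E : List (ℕ × ℕ)) (τ W : ℕ) (todo B : List ℕ) : List (List ℕ × List ℕ) :=
  todo.foldl (stp E τ W) [([], B)]

/-- the potential of a state when `j` vertices are left -/
def pot (τ j : ℕ) (s : List ℕ × List ℕ) : ℕ := if τ = 0 then 2 ^ j else (j + 1) ^ (s.2.length / τ)

theorem one_le_pot (τ j : ℕ) (s : List ℕ × List ℕ) : 1 ≤ pot τ j s := by
  unfold pot
  split_ifs
  · exact Nat.one_le_two_pow
  · exact Nat.one_le_pow _ _ (Nat.succ_pos _)

theorem length_nbrs_add (E : List (ℕ × ℕ)) (v : ℕ) (B : List ℕ) :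
    (nbrs E v B).length + (nonnbrs E v B).length = B.length := by
  induction B with
  | nil => rfl
  | cons w B ih =>
    simp only [nbrs, nonnbrs] at ih
    simp only [nbrs, nonnbrs, List.filter_cons]
    by_cases h : (v, w) ∈ E
    · simp only [h, decide_true, if_true, Bool.not_true, Bool.false_eq_true, if_false,
        List.length_cons]
      omega
    · simp only [h, decide_false, Bool.false_eq_true, if_false, Bool.not_false, if_true,
        List.length_cons]
      omega

theorem br_pot (E : List (ℕ × ℕ)) (τ j v : ℕ) (s : List ℕ × List ℕ) :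
    ((br E τ v s).map (pot τ j)).sum ≤ pot τ (j + 1) s := by
  unfold br
  rcases Nat.eq_zero_or_pos τ with h0 | h0
  · subst h0
    simp only [Nat.zero_le, if_true, List.map_cons, List.map_nil, List.sum_cons, List.sum_nil, pot,
      pow_succ]
    omega
  · have h1 : ∀ (i : ℕ) (q : List ℕ × List ℕ), pot τ i q = (i + 1) ^ (q.2.length / τ) := by
      intro i q; simp [pot, h0.ne']
    by_cases h : τ ≤ (nbrs E v s.2).length
    · rw [if_pos h]
      simp only [List.map_cons, List.map_nil, List.sum_cons, List.sum_nil, h1, add_zero]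
      have h2 := length_nbrs_add E v s.2
      have h3 : (nonnbrs E v s.2).length / τ + 1 ≤ s.2.length / τ := by
        have : ((nonnbrs E v s.2).length + τ) / τ = (nonnbrs E v s.2).length / τ + 1 :=
          Nat.add_div_right _ h0
        rw [← this]
        exact Nat.div_le_div_right (by omega)
      obtain ⟨k, hk⟩ : ∃ k, s.2.length / τ = k + 1 :=
        ⟨s.2.length / τ - 1, (Nat.succ_pred_eq_of_pos (lt_of_lt_of_le (Nat.succ_pos _) h3)).symm⟩
      rw [hk] at h3 ⊢
      have h4 : (j + 1) ^ ((nonnbrs E v s.2).length / τ) ≤ (j + 1) ^ k :=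
        Nat.pow_le_pow_right (Nat.succ_pos _) (by omega)
      calc (j + 1) ^ (k + 1) + (j + 1) ^ ((nonnbrs E v s.2).length / τ)
          ≤ (j + 1) ^ (k + 1) + (j + 1) ^ k := by omega
        _ = (j + 1 + 1) * (j + 1) ^ k := by ring
        _ ≤ (j + 1 + 1) * (j + 1 + 1) ^ k :=
          Nat.mul_le_mul_left _ (Nat.pow_le_pow_left (Nat.le_succ _) _)
        _ = (j + 1 + 1) ^ (k + 1) := by ring
    · rw [if_neg h]
      simp only [List.map_cons, List.map_nil, List.sum_cons, List.sum_nil, h1, add_zero]
      exact Nat.pow_le_pow_left (Nat.le_succ _) _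

theorem flatMap_pot (E : List (ℕ × ℕ)) (τ j v : ℕ) (st : List (List ℕ × List ℕ)) :
    ((st.flatMap (br E τ v)).map (pot τ j)).sum ≤ (st.map (pot τ (j + 1))).sum := by
  induction st with
  | nil => simp
  | cons s st ih =>
    simp only [List.flatMap_cons, List.map_append, List.sum_append, List.map_cons, List.sum_cons]
    exact Nat.add_le_add (br_pot E τ j v s) ih

theorem length_le_pot (τ j : ℕ) (st : List (List ℕ × List ℕ)) :
    st.length ≤ (st.map (pot τ j)).sum := by
  induction st with
  | nil => simp
  | cons s st ih =>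
    simp only [List.length_cons, List.map_cons, List.sum_cons]
    have := one_le_pot τ j s
    omega

/-- There are not too many states. -/
theorem foldl_pot (E : List (ℕ × ℕ)) (τ W : ℕ) (todo : List ℕ) :
    ∀ st : List (List ℕ × List ℕ), (st.map (pot τ todo.length)).sum ≤ W →
      ((todo.foldl (stp E τ W) st).map (pot τ 0)).sum ≤ (st.map (pot τ todo.length)).sum := by
  induction todo with
  | nil => intro st _; simp
  | cons v todo ih =>
    intro st hW
    rw [List.length_cons] at hW ⊢
    have h1 := flatMap_pot E τ todo.length v st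
    have h2 : stp E τ W st v = st.flatMap (br E τ v) :=
      List.take_of_length_le (((length_le_pot τ todo.length _).trans h1).trans hW)
    rw [List.foldl_cons, h2]
    exact (ih _ (h1.trans hW)).trans h1

/-- The branching on one vertex keeps the number of independent sets. -/
theorem br_sum (E : List (ℕ × ℕ)) (τ v : ℕ) (Z : Finset ℕ) (s : List ℕ × List ℕ) (hv : v ∉ Z)
    (hs : v ∉ s.1) :
    ((br E τ v s).map (fun q => cnt E (Z ∪ q.1.toFinset) q.2.toFinset)).sum =
      cnt E (insert v Z ∪ s.1.toFinset) s.2.toFinset := by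
  have hv' : v ∉ Z ∪ s.1.toFinset := by
    rw [Finset.mem_union, List.mem_toFinset]; tauto
  unfold br
  split_ifs with h
  · simp only [List.map_cons, List.map_nil, List.sum_cons, List.sum_nil, add_zero]
    rw [Finset.insert_union, cnt_insert E _ hv']
    congr 2
    ext w
    simp [nonnbrs, List.mem_filter]
  · simp only [List.map_cons, List.map_nil, List.sum_cons, List.sum_nil, add_zero,
      List.toFinset_cons]
    rw [Finset.insert_union, Finset.union_insert]

theorem flatMap_sum (E : List (ℕ × ℕ)) (τ v : ℕ) (Z : Finset ℕ) (st : List (List ℕ × List ℕ))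
    (hv : v ∉ Z) (hs : ∀ s ∈ st, v ∉ s.1) :
    ((st.flatMap (br E τ v)).map (fun q => cnt E (Z ∪ q.1.toFinset) q.2.toFinset)).sum =
      (st.map (fun s => cnt E (insert v Z ∪ s.1.toFinset) s.2.toFinset)).sum := by
  induction st with
  | nil => simp
  | cons s st ih =>
    simp only [List.flatMap_cons, List.map_append, List.sum_append, List.map_cons, List.sum_cons]
    rw [br_sum E τ v Z s hv (hs s (by simp)), ih (fun s h => hs s (List.mem_cons_of_mem _ h))]

theorem mem_br {E : List (ℕ × ℕ)} {τ v : ℕ} {s q : List ℕ × List ℕ} (hq : q ∈ br E τ v s) :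
    (q.1 = s.1 ∧ (q.2 = s.2 ∨ q.2 = nonnbrs E v s.2)) ∨
      (q = (v :: s.1, s.2) ∧ (nbrs E v s.2).length < τ) := by
  unfold br at hq
  split_ifs at hq with h
  · simp only [List.mem_cons, List.not_mem_nil, or_false] at hq
    rcases hq with rfl | rfl
    · left; exact ⟨rfl, Or.inl rfl⟩
    · left; exact ⟨rfl, Or.inr rfl⟩
  · simp only [List.mem_cons, List.not_mem_nil, or_false] at hq
    right; exact ⟨hq, by omega⟩

theorem foldl_sum (E : List (ℕ × ℕ)) (τ W : ℕ) (Z : Finset ℕ) (todo : List ℕ) :
    ∀ st : List (List ℕ × List ℕ), (st.map (pot τ todo.length)).sum ≤ W → todo.Nodup →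
      (∀ x ∈ todo, x ∉ Z) → (∀ s ∈ st, ∀ x ∈ todo, x ∉ s.1) →
      ((todo.foldl (stp E τ W) st).map (fun q => cnt E (Z ∪ q.1.toFinset) q.2.toFinset)).sum =
        (st.map (fun q => cnt E (Z ∪ todo.toFinset ∪ q.1.toFinset) q.2.toFinset)).sum := by
  induction todo with
  | nil => intro st _ _ _ _; simp
  | cons v todo ih =>
    intro st hW hnd hZ hst
    rw [List.length_cons] at hW
    have h1 := flatMap_pot E τ todo.length v st
    have h2 : stp E τ W st v = st.flatMap (br E τ v) :=
      List.take_of_length_le (((length_le_pot τ todo.length _).trans h1).trans hW)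
    rw [List.nodup_cons] at hnd
    have hvZ : v ∉ Z ∪ todo.toFinset := by
      rw [Finset.mem_union, List.mem_toFinset]
      rintro (h | h)
      · exact hZ v (by simp) h
      · exact hnd.1 h
    rw [List.foldl_cons, h2, ih _ (h1.trans hW) hnd.2
      (fun x hx => hZ x (List.mem_cons_of_mem _ hx)) ?_]
    · rw [flatMap_sum E τ v (Z ∪ todo.toFinset) st hvZ (fun s hs => hst s hs v (by simp))]
      simp only [List.toFinset_cons, Finset.union_insert]
    · intro q hq x hx
      rw [List.mem_flatMap] at hq
      obtain ⟨s, hs, hq⟩ := hq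
      rcases mem_br hq with ⟨h, _⟩ | ⟨h, _⟩
      · rw [h]; exact hst s hs x (List.mem_cons_of_mem _ hx)
      · rw [h]
        simp only [List.mem_cons, not_or]
        refine ⟨?_, hst s hs x (List.mem_cons_of_mem _ hx)⟩
        rintro rfl
        exact hnd.1 hx

/-- the invariant of the states after the vertices of `P` are processed -/
def Good (E : List (ℕ × ℕ)) (τ : ℕ) (P B : List ℕ) (s : List ℕ × List ℕ) : Prop :=
  s.1.Sublist P.reverse ∧ s.2.Sublist B ∧ ∀ v ∈ s.1, (nbrs E v s.2).length < τ

theorem nbrs_sublist (E : List (ℕ × ℕ)) (v : ℕ) {B B' : List ℕ} (h : B.Sublist B') :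
    (nbrs E v B).Sublist (nbrs E v B') := h.filter _

theorem nonnbrs_sublist (E : List (ℕ × ℕ)) (v : ℕ) (B : List ℕ) :
    (nonnbrs E v B).Sublist B := List.filter_sublist

theorem foldl_good (E : List (ℕ × ℕ)) (τ W : ℕ) (B todo : List ℕ) :
    ∀ (P : List ℕ) (st : List (List ℕ × List ℕ)), (∀ s ∈ st, Good E τ P B s) →
      ∀ s ∈ todo.foldl (stp E τ W) st, Good E τ (P ++ todo) B s := by
  induction todo with
  | nil => intro P st h; simpa using h
  | cons v todo ih =>
    intro P st h
    rw [List.foldl_cons, show P ++ v :: todo = (P ++ [v]) ++ todo by simp]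
    refine ih (P ++ [v]) _ fun q hq => ?_
    have hq' := List.mem_of_mem_take hq
    rw [List.mem_flatMap] at hq'
    obtain ⟨s, hs, hq'⟩ := hq'
    obtain ⟨g1, g2, g3⟩ := h s hs
    have g4 : s.1.Sublist (P ++ [v]).reverse := by
      rw [List.reverse_append]
      exact g1.trans (List.sublist_append_right _ _)
    rcases mem_br hq' with ⟨h1, h2⟩ | ⟨h1, h2⟩
    · have g5 : q.2.Sublist s.2 := by
        rcases h2 with h2 | h2
        · rw [h2]
        · rw [h2]; exact nonnbrs_sublist E v _
      refine ⟨by rw [h1]; exact g4, g5.trans g2, fun w hw => ?_⟩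
      rw [h1] at hw
      exact lt_of_le_of_lt (nbrs_sublist E w g5).length_le (g3 w hw)
    · rw [h1]
      refine ⟨?_, g2, fun w hw => ?_⟩
      · rw [List.reverse_append]
        exact g1.cons_cons v
      · rw [List.mem_cons] at hw
        rcases hw with rfl | hw
        · exact h2
        · exact g3 w hw

theorem phase_good {E : List (ℕ × ℕ)} {τ W : ℕ} {todo B : List ℕ} {s : List ℕ × List ℕ}
    (hs : s ∈ phase E τ W todo B) : s.1.Sublist todo.reverse ∧ s.2.Sublist B ∧
      ∀ v ∈ s.1, (nbrs E v s.2).length < τ := by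
  have := foldl_good E τ W B todo [] [([], B)] (fun s hs => by
    rw [List.mem_singleton] at hs
    subst hs
    exact ⟨by simp, List.Sublist.refl _, by simp⟩) s hs
  simpa [Good] using this

theorem phase_zero {E : List (ℕ × ℕ)} {W : ℕ} {todo B : List ℕ} {s : List ℕ × List ℕ}
    (hs : s ∈ phase E 0 W todo B) : s.1 = [] := by
  have := (phase_good hs).2.2
  rw [List.eq_nil_iff_forall_not_mem]
  intro v hv
  exact absurd (this v hv) (Nat.not_lt_zero _)

theorem phase_sum (E : List (ℕ × ℕ)) (τ W : ℕ) (Z : Finset ℕ) (todo B : List ℕ)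
    (hW : pot τ todo.length ([], B) ≤ W) (hnd : todo.Nodup) (hZ : ∀ x ∈ todo, x ∉ Z) :
    ((phase E τ W todo B).map (fun q => cnt E (Z ∪ q.1.toFinset) q.2.toFinset)).sum =
      cnt E (Z ∪ todo.toFinset) B.toFinset := by
  rw [phase, foldl_sum E τ W Z todo _ (by simpa using hW) hnd hZ (by simp)]
  simp

theorem phase_length (E : List (ℕ × ℕ)) (τ W : ℕ) (todo B : List ℕ)
    (hW : pot τ todo.length ([], B) ≤ W) :
    (phase E τ W todo B).length ≤ pot τ todo.length ([], B) := by
  have h := foldl_pot E τ W todo [([], B)] (by simpa using hW)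
  simp only [List.map_cons, List.map_nil, List.sum_cons, List.sum_nil, add_zero] at h
  exact (length_le_pot τ 0 _).trans h

end Pool.Agent.J4H63.DB
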