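import Pool.Agent.J4H63.DB.Algo
import Pool.Agent.NPC.Dec
import Pool.Agent.H628R3.RO.P2

/-!
# The approximate count is computed in polynomial time
-/

namespace Pool.Agent.J4H63.DB

open Pool.Agent.NPC

/-! ### Tools -/

section Tools

variable {α β : Type} [TEnc α] [TEnc β]

theorem zipIdx_filter {β : Type} (l : List β) : ∀ n k : ℕ,
    ((l.zipIdx k).filter (fun p => decide (p.2 < n + k))).map (fun p => p.1) = l.take n := by
  induction l with
  | nil => intro n k; simp
  | cons b l ih =>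
    intro n k
    rw [List.zipIdx_cons, List.filter_cons]
    cases n with
    | zero =>
      have h : ∀ p ∈ l.zipIdx (k + 1), ¬ (p.2 < 0 + k) := by
        intro p hp
        have := (List.mem_zipIdx hp).1
        omega
      simp only [Nat.zero_add, lt_self_iff_false, decide_false, Bool.false_eq_true, if_false,
        List.take_zero, List.map_eq_nil_iff, List.filter_eq_nil_iff, decide_eq_true_eq]
      intro p hp
      have := h p hp
      omega
    | succ n =>
      have h1 : k < n + 1 + k := by omega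
      simp only [h1, decide_true, if_true, List.map_cons, List.take_succ_cons]
      rw [← ih n (k + 1)]
      congr 3
      funext p
      simp only [decide_eq_decide]
      omega

theorem p_take {l : α → List β} {n : α → ℕ} (hl : Poly l) (hn : Poly n) :
    Poly (fun a => (l a).take (n a)) := by
  have h1 : Poly (fun a => ((l a).zipIdx.filter (fun p => decide (p.2 < n a)))) :=
    Poly.filter (p := fun a (p : β × ℕ) => decide (p.2 < n a)) (Poly.zipIdx hl)
      (Poly.decide_lt (Poly.snd (Poly.snd Poly.id)) (hn.comp (Poly.fst Poly.id)))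
  refine (NPC.Poly.map (F := fun _ (p : β × ℕ) => p.1) h1 (Poly.fst (Poly.snd Poly.id))).congr
    fun a => ?_
  have := zipIdx_filter (l a) (n a) 0
  simpa using this

theorem p_replicate_false {n : α → ℕ} (hn : UPoly n) :
    Poly (fun a => List.replicate (n a) false) :=
  (NPC.Poly.map (F := fun _ (_ : Unit) => false) hn (NPC.Poly.const false)).congr fun a => by simp

theorem p_two_pow {n : α → ℕ} (hn : UPoly n) : Poly (fun a => 2 ^ (n a)) := by
  have h : Poly (fun a => valB (List.replicate (n a) false ++ [true])) :=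
    Poly.valBits (Poly.append (p_replicate_false hn) (NPC.Poly.const [true]))
  refine h.congr fun a => ?_
  rw [valB_replicate_false]
  simp

theorem p_max {m n : α → ℕ} (hm : Poly m) (hn : Poly n) : Poly (fun a => max (m a) (n a)) :=
  Poly.max hm hn

end Tools

/-! ### The branching procedure -/

section Phase

variable {α : Type} [TEnc α]

theorem p_sw {E : α → List (ℕ × ℕ)} (hE : Poly E) : Poly (fun a => sw (E a)) :=
  NPC.Poly.map (F := fun _ (e : ℕ × ℕ) => e.swap) hE
    ((Poly.pair (Poly.snd (Poly.snd Poly.id)) (Poly.fst (Poly.snd Poly.id))).congr fun _ => rfl)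

theorem p_mem_pair {f : α → ℕ × ℕ} {l : α → List (ℕ × ℕ)} (hf : Poly f) (hl : Poly l) :
    Poly (fun a => decide (f a ∈ l a)) :=
  (Poly.decide_mem hf hl).congr fun _ => decide_eq_decide.2 Iff.rfl

theorem p_nbrs {E : α → List (ℕ × ℕ)} {v : α → ℕ} {B : α → List ℕ} (hE : Poly E) (hv : Poly v)
    (hB : Poly B) : Poly (fun a => nbrs (E a) (v a) (B a)) :=
  Poly.filter (p := fun a w => decide ((v a, w) ∈ E a)) hB
    (p_mem_pair (Poly.pair (hv.comp (Poly.fst Poly.id)) (Poly.snd Poly.id))
      (hE.comp (Poly.fst Poly.id)))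

theorem p_nonnbrs {E : α → List (ℕ × ℕ)} {v : α → ℕ} {B : α → List ℕ} (hE : Poly E)
    (hv : Poly v) (hB : Poly B) : Poly (fun a => nonnbrs (E a) (v a) (B a)) :=
  Poly.filter (p := fun a w => !decide ((v a, w) ∈ E a)) hB
    (Poly.not (p_mem_pair (Poly.pair (hv.comp (Poly.fst Poly.id)) (Poly.snd Poly.id))
      (hE.comp (Poly.fst Poly.id))))

theorem p_br {E : α → List (ℕ × ℕ)} {τ v : α → ℕ} {s : α → List ℕ × List ℕ} (hE : Poly E)
    (hτ : Poly τ) (hv : Poly v) (hs : Poly s) : Poly (fun a => br (E a) (τ a) (v a) (s a)) := by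
  unfold br
  refine Poly.ite (Poly.decide_le hτ (Poly.length (p_nbrs hE hv (Poly.snd hs)))) ?_ ?_
  · exact Poly.cons hs (Poly.cons (Poly.pair (Poly.fst hs) (p_nonnbrs hE hv (Poly.snd hs)))
      (NPC.Poly.const []))
  · exact Poly.cons (Poly.pair (Poly.cons hv (Poly.fst hs)) (Poly.snd hs)) (NPC.Poly.const [])

theorem foldl_length (E : List (ℕ × ℕ)) (τ W : ℕ) (todo : List ℕ) :
    ∀ st : List (List ℕ × List ℕ), st.length ≤ W + 1 →
      (todo.foldl (stp E τ W) st).length ≤ W + 1 := by
  induction todo with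
  | nil => intro st h; simpa using h
  | cons v todo ih =>
    intro st h
    rw [List.foldl_cons]
    refine ih _ ?_
    unfold stp
    rw [List.length_take]
    omega

theorem sz_phase_le (E : List (ℕ × ℕ)) (τ W : ℕ) (todo B : List ℕ) :
    sz (phase E τ W todo B) ≤ (W + 1) * (sz todo + sz B + 2) + 1 := by
  have h1 := sz_le_length_mul (phase E τ W todo B) (sz todo + sz B + 1) fun s hs => by
    obtain ⟨g1, g2, _⟩ := phase_good hs
    have e1 := H628R3.RO.sz_le_of_sublist g1
    rw [sz_reverse] at e1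
    have e2 := H628R3.RO.sz_le_of_sublist g2
    rw [show sz s = sz s.1 + sz s.2 + 1 from sz_pair s.1 s.2]
    omega
  refine h1.trans (Nat.add_le_add_right (Nat.mul_le_mul_right _ ?_) 1)
  exact foldl_length E τ W todo _ (by simp)

theorem p_phase {E : α → List (ℕ × ℕ)} {τ W : α → ℕ} {todo B : α → List ℕ} (hE : Poly E)
    (hτ : Poly τ) (hW : UPoly W) (htodo : Poly todo) (hB : Poly B) :
    Poly (fun a => phase (E a) (τ a) (W a) (todo a) (B a)) := by
  obtain ⟨r, hr⟩ := H628R3.RO.uPoly_le hW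
  obtain ⟨r1, hr1⟩ := htodo.sz_le
  obtain ⟨r2, hr2⟩ := hB.sz_le
  have hstep : Poly (fun p : α × List (List ℕ × List ℕ) × ℕ =>
      stp (E p.1) (τ p.1) (W p.1) p.2.1 p.2.2) := by
    unfold stp
    refine p_take (Poly.flatMap
      (F := fun (p : α × List (List ℕ × List ℕ) × ℕ) s => br (E p.1) (τ p.1) p.2.2 s)
      (Poly.fst (Poly.snd Poly.id)) ?_) (hW.toPoly.comp (Poly.fst Poly.id))
    exact p_br (hE.comp (Poly.fst (Poly.fst Poly.id))) (hτ.comp (Poly.fst (Poly.fst Poly.id)))
      (Poly.snd (Poly.snd (Poly.fst Poly.id))) (Poly.snd Poly.id)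
  refine Poly.foldl (l := todo) (s := fun a => [(([] : List ℕ), B a)])
    (F := fun a st v => stp (E a) (τ a) (W a) st v) htodo
    (Poly.cons (Poly.pair (NPC.Poly.const []) hB) (NPC.Poly.const [])) hstep
    ((r + Polynomial.C 1) * (r1 + r2 + Polynomial.C 2) + Polynomial.C 1) ?_
  intro a k _
  have h1 := sz_phase_le (E a) (τ a) (W a) ((todo a).take k) (B a)
  have h2 := NPC.Poly.sz_take_le (todo a) k
  have h3 := hr a
  have h4 := hr1 a
  have h5 := hr2 a
  simp only [Polynomial.eval_add, Polynomial.eval_mul, Polynomial.eval_C]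
  exact h1.trans (Nat.add_le_add_right (Nat.mul_le_mul (by omega) (by omega)) 1)

theorem p_edgesIn {E : α → List (ℕ × ℕ)} {Q B : α → List ℕ} (hE : Poly E) (hQ : Poly Q)
    (hB : Poly B) : Poly (fun a => edgesIn (E a) (Q a) (B a)) :=
  Poly.filter (p := fun a (e : ℕ × ℕ) => decide (e.1 ∈ Q a) && decide (e.2 ∈ B a)) hE
    (Poly.and (Poly.decide_mem (Poly.fst (Poly.snd Poly.id)) (hQ.comp (Poly.fst Poly.id)))
      (Poly.decide_mem (Poly.snd (Poly.snd Poly.id)) (hB.comp (Poly.fst Poly.id))))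

theorem foldl_gm_sublist (H : List (ℕ × ℕ)) : ∀ (P M : List (ℕ × ℕ)), M.Sublist P.reverse →
    (H.foldl gmStep M).Sublist (P ++ H).reverse := by
  induction H with
  | nil => intro P M h; simpa using h
  | cons e H ih =>
    intro P M h
    rw [List.foldl_cons, show P ++ e :: H = (P ++ [e]) ++ H by simp]
    refine ih _ _ ?_
    rw [List.reverse_append]
    unfold gmStep
    split_ifs
    · exact h.trans (List.sublist_append_right _ _)
    · exact h.cons_cons e

theorem sz_gm_le (H : List (ℕ × ℕ)) : sz (gm H) ≤ sz H := by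
  have := foldl_gm_sublist H [] [] (List.Sublist.refl _)
  have h := H628R3.RO.sz_le_of_sublist this
  rw [sz_reverse] at h
  simpa [gm] using h

theorem p_gm {H : α → List (ℕ × ℕ)} (hH : Poly H) : Poly (fun a => gm (H a)) := by
  obtain ⟨r, hr⟩ := hH.sz_le
  have hstep : Poly (fun p : α × List (ℕ × ℕ) × (ℕ × ℕ) => gmStep p.2.1 p.2.2) := by
    unfold gmStep
    have hM : Poly (fun p : α × List (ℕ × ℕ) × (ℕ × ℕ) => p.2.1) := Poly.fst (Poly.snd Poly.id)
    have he : Poly (fun p : α × List (ℕ × ℕ) × (ℕ × ℕ) => p.2.2) := Poly.snd (Poly.snd Poly.id)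
    refine Poly.ite (Poly.decide_or (Poly.decide_mem (Poly.fst he) ?_)
      (Poly.decide_mem (Poly.snd he) ?_)) hM (Poly.cons he hM)
    · exact NPC.Poly.map (F := fun _ (e : ℕ × ℕ) => e.1) hM (Poly.fst (Poly.snd Poly.id))
    · exact NPC.Poly.map (F := fun _ (e : ℕ × ℕ) => e.2) hM (Poly.snd (Poly.snd Poly.id))
  refine Poly.foldl (l := H) (s := fun _ => ([] : List (ℕ × ℕ)))
    (F := fun _ M e => gmStep M e) hH (NPC.Poly.const []) hstep r ?_
  intro a k _
  have h1 := sz_gm_le ((H a).take k)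
  have h2 := NPC.Poly.sz_take_le (H a) k
  exact h1.trans (h2.trans (hr a))

theorem p_out {C Q : α → List ℕ} (hC : Poly C) (hQ : Poly Q) :
    Poly (fun a => out (C a) (Q a)) :=
  Poly.filter (p := fun a x => !decide (x ∈ C a)) hQ
    (Poly.not (Poly.decide_mem (Poly.snd Poly.id) (hC.comp (Poly.fst Poly.id))))

theorem p_inn {C Q : α → List ℕ} (hC : Poly C) (hQ : Poly Q) :
    Poly (fun a => inn (C a) (Q a)) :=
  Poly.filter (p := fun a x => decide (x ∈ C a)) hQ
    (Poly.decide_mem (Poly.snd Poly.id) (hC.comp (Poly.fst Poly.id)))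

theorem p_inner {E : α → List (ℕ × ℕ)} {W : α → ℕ} {CR rL B : α → List ℕ} (hE : Poly E)
    (hW : UPoly W) (hCR : Poly CR) (hrL : Poly rL) (hB : Poly B) :
    Poly (fun a => inner (E a) (W a) (CR a) (rL a) (B a)) := by
  unfold inner
  refine Poly.sum (NPC.Poly.map
    (F := fun a (s : List ℕ × List ℕ) => 2 ^ (s.2.length + (out (CR a) (B a)).length))
    (p_phase (p_sw hE) (NPC.Poly.const 0) hW (p_inn hCR hB) hrL) ?_)
  exact p_two_pow (UPoly.add (UPoly.length (Poly.snd (Poly.snd Poly.id)))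
    (UPoly.length (p_out (hCR.comp (Poly.fst Poly.id)) (hB.comp (Poly.fst Poly.id)))))

theorem p_leafEx {E : α → List (ℕ × ℕ)} {W : α → ℕ} {Q B : α → List ℕ} {M : α → List (ℕ × ℕ)}
    (hE : Poly E) (hW : UPoly W) (hQ : Poly Q) (hB : Poly B) (hM : Poly M) :
    Poly (fun a => leafEx (E a) (W a) (Q a) (B a) (M a)) := by
  have h1 : Poly (fun a => (M a).map Prod.fst) :=
    NPC.Poly.map (F := fun _ (e : ℕ × ℕ) => e.1) hM (Poly.fst (Poly.snd Poly.id))
  have h2 : Poly (fun a => (M a).map Prod.snd) :=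
    NPC.Poly.map (F := fun _ (e : ℕ × ℕ) => e.2) hM (Poly.snd (Poly.snd Poly.id))
  unfold leafEx
  refine Poly.sum (NPC.Poly.map (F := fun a (s : List ℕ × List ℕ) =>
      inner (E a) (W a) ((M a).map Prod.snd) (out ((M a).map Prod.fst) (Q a)) s.2)
    (p_phase hE (NPC.Poly.const 0) hW h1 hB) ?_)
  exact p_inner (hE.comp (Poly.fst Poly.id)) (UPoly.comp hW (Poly.fst Poly.id))
    (h2.comp (Poly.fst Poly.id)) ((p_out h1 hQ).comp (Poly.fst Poly.id))
    (Poly.snd (Poly.snd Poly.id))

theorem p_leafVal {E : α → List (ℕ × ℕ)} {t W : α → ℕ} {Q B : α → List ℕ}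
    (hE : Poly E) (ht : Poly t) (hW : UPoly W) (hQ : Poly Q) (hB : Poly B) :
    Poly (fun a => leafVal (E a) (t a) (W a) (Q a) (B a)) := by
  have h1 := p_gm (p_edgesIn hE hQ hB)
  unfold leafVal
  exact Poly.ite (Poly.decide_le (Poly.mul (NPC.Poly.const 8) ht) (Poly.length h1))
    (NPC.Poly.const 0) (p_leafEx hE hW hQ hB h1)

theorem p_mid {E : α → List (ℕ × ℕ)} {τ t W : α → ℕ} {s : α → List ℕ × List ℕ}
    (hE : Poly E) (hτ : Poly τ) (ht : Poly t) (hW : UPoly W) (hs : Poly s) :
    Poly (fun a => mid (E a) (τ a) (t a) (W a) (s a)) := by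
  unfold mid
  refine Poly.sum (NPC.Poly.map (F := fun a (q : List ℕ × List ℕ) =>
      leafVal (E a) (t a) (W a) q.2 q.1)
    (p_phase (p_sw hE) hτ hW (Poly.snd hs) (Poly.fst hs)) ?_)
  exact p_leafVal (hE.comp (Poly.fst Poly.id)) (ht.comp (Poly.fst Poly.id))
    (UPoly.comp hW (Poly.fst Poly.id)) (Poly.snd (Poly.snd Poly.id))
    (Poly.fst (Poly.snd Poly.id))

theorem p_total {E : α → List (ℕ × ℕ)} {τ t W : α → ℕ} {L R : α → List ℕ}
    (hE : Poly E) (hτ : Poly τ) (ht : Poly t) (hW : UPoly W) (hL : Poly L) (hR : Poly R) :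
    Poly (fun a => total (E a) (τ a) (t a) (W a) (L a) (R a)) := by
  unfold total
  refine Poly.sum (NPC.Poly.map (F := fun a (s : List ℕ × List ℕ) => mid (E a) (τ a) (t a) (W a) s)
    (p_phase hE hτ hW hL hR) ?_)
  exact p_mid (hE.comp (Poly.fst Poly.id)) (hτ.comp (Poly.fst Poly.id))
    (ht.comp (Poly.fst Poly.id)) (UPoly.comp hW (Poly.fst Poly.id)) (Poly.snd Poly.id)

end Phase

/-- A typed polynomial-time function is computed by a polynomial-time function on codes. -/
theorem exists_polyTime {α β : Type} [TEnc α] [TEnc β] [TDec α] {F : α → β} (hF : Poly F)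
    (b : β) : ∃ A : List Bool → List Bool, PolyTime A ∧ ∀ s, A (bits s) = bits (F s) := by
  refine ⟨fun x => bits (match unbits α x with | none => b | some a => F a), ?_, fun s => ?_⟩
  · exact polyTime_bits (Poly.optCases (g := fun _ => b) (h := fun _ a => F a) poly_unbits
      (NPC.Poly.const _) (hF.comp (Poly.snd Poly.id)))
  · simp only [unbits_bits]

end Pool.Agent.J4H63.DB
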